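import Pool.Agent.LGAlt.Rows

/-!
# Checks of the definitions (not used elsewhere)

The matrices `Rpos` and `Rneg` are inverse to each other and satisfy the braid relation, the cups and
caps satisfy the zigzag identities, and a curl acts as the identity.
-/

namespace LGAlt

section

variable {K : Type*} [CommRing K] (a a' b b' : K)

theorem Rpos_eq' : Rpos a b = RposT a b := by
  funext G i j
  exact Rpos_eq a b G i j

theorem Rneg_eq' : Rneg a a' b b' = RnegT a a' b b' := by
  funext G i j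
  exact Rneg_eq a a' b b' G i j

end

variable {K : Type*} [Field K] (a b : K)

theorem Rpos_Rneg (ha : a ≠ 0) (hb : b ≠ 0) (G : Fin 4 → Fin 4 → K) (x y : Fin 4) :
    Rpos a b (Rneg a a⁻¹ b b⁻¹ G) x y = G x y := by
  rw [Rpos_eq', Rneg_eq']
  fin_cases x <;> fin_cases y <;> simp [RposT, RnegT] <;> field_simp <;> ring

theorem Rneg_Rpos (ha : a ≠ 0) (hb : b ≠ 0) (G : Fin 4 → Fin 4 → K) (x y : Fin 4) :
    Rneg a a⁻¹ b b⁻¹ (Rpos a b G) x y = G x y := by
  rw [Rpos_eq', Rneg_eq']
  fin_cases x <;> fin_cases y <;> simp [RposT, RnegT] <;> field_simp <;> ring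

/-- the R-matrix on the first two of three factors -/
def A12 (T : Fin 4 → Fin 4 → Fin 4 → K) (i j k : Fin 4) : K := RposT a b (fun p q => T p q k) i j

/-- the R-matrix on the last two of three factors -/
def A23 (T : Fin 4 → Fin 4 → Fin 4 → K) (i j k : Fin 4) : K := RposT a b (fun p q => T i p q) j k

theorem braid (T : Fin 4 → Fin 4 → Fin 4 → K) (i j k : Fin 4) :
    A12 a b (A23 a b (A12 a b T)) i j k = A23 a b (A12 a b (A23 a b T)) i j k := by
  fin_cases i <;> fin_cases j <;> fin_cases k <;> simp [A12, A23, RposT] <;> ring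

theorem curl_pos (g : Fin 4 → K) (x : Fin 4) (ha : a ≠ 0) :
    (∑ y : Fin 4, cupW a b⁻¹ true y *
      Rpos a b (fun p q => if q = y then capW a⁻¹ b true y * g p else 0) x y) = g x := by
  rw [Rpos_eq']
  fin_cases x <;> simp [Fin.sum_univ_four, cupW, capW, RposT] <;> field_simp <;> ring

theorem curl_neg (hb : b ≠ 0) (g : Fin 4 → K) (x : Fin 4) (ha : a ≠ 0) :
    (∑ y : Fin 4, cupW a b⁻¹ true y *
      Rneg a a⁻¹ b b⁻¹ (fun p q => if q = y then capW a⁻¹ b true y * g p else 0) x y) = g x := by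
  rw [Rneg_eq']
  fin_cases x <;> simp [Fin.sum_univ_four, cupW, capW, RnegT] <;> field_simp <;> ring

theorem zigzag (ha : a ≠ 0) (hb : b ≠ 0) (s : Bool) (x : Fin 4) :
    cupW a b⁻¹ s x * capW a⁻¹ b (!s) x = 1 := by
  fin_cases x <;> cases s <;> simp [cupW, capW] <;> field_simp

end LGAlt
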