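import Pool.Agent.LGAlt.Defs

/-!
# The R-matrix, entry by entry
-/

namespace LGAlt

section

variable {K : Type*} [CommRing K] (a a' b b' : K)

/-- the R-matrix, entry by entry -/
def RposT (G : Fin 4 → Fin 4 → K) : Fin 4 → Fin 4 → K
  | 0, 0 => a ^ 2 * G 0 0
  | 0, 1 => a * G 1 0
  | 0, 2 => a * G 2 0
  | 0, 3 => G 3 0
  | 1, 0 => a * G 0 1 + (a ^ 2 - 1) * G 1 0
  | 1, 1 => -G 1 1
  | 1, 2 => (a ^ 2 * b ^ 2 - 1) * G 1 2 - a * b * G 2 1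
      - a * b * ((a ^ 2 - 1) * (1 - b ^ 2)) * G 3 0
  | 1, 3 => b * G 3 1
  | 2, 0 => a * G 0 2 + (a ^ 2 - 1) * G 2 0
  | 2, 1 => -(a * b) * G 1 2 + (a ^ 2 - 1) * (1 - b ^ 2) * G 3 0
  | 2, 2 => -G 2 2
  | 2, 3 => b * G 3 2
  | 3, 0 => G 0 3 - a * b * G 1 2 + G 2 1 + (a ^ 2 - 1) * (1 - b ^ 2) * G 3 0
  | 3, 1 => b * G 1 3 + (b ^ 2 - 1) * G 3 1
  | 3, 2 => b * G 2 3 + (b ^ 2 - 1) * G 3 2
  | 3, 3 => b ^ 2 * G 3 3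

/-- the inverse of the R-matrix, entry by entry -/
def RnegT (G : Fin 4 → Fin 4 → K) : Fin 4 → Fin 4 → K
  | 0, 0 => a' ^ 2 * G 0 0
  | 0, 1 => a' * G 1 0 + (a' ^ 2 - 1) * G 0 1
  | 0, 2 => a' * G 2 0 + (a' ^ 2 - 1) * G 0 2
  | 0, 3 => G 3 0 - a' ^ 2 * b' ^ 2 * G 2 1 + a' * b' * G 1 2
      + a' ^ 2 * b' ^ 2 * ((a ^ 2 - 1) * (1 - b ^ 2)) * G 0 3
  | 1, 0 => a' * G 0 1
  | 1, 1 => -G 1 1
  | 1, 2 => -(a' * b') * G 2 1 + a' * b' * ((a ^ 2 - 1) * (1 - b ^ 2)) * G 0 3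
  | 1, 3 => b' * G 3 1 + (b' ^ 2 - 1) * G 1 3
  | 2, 0 => a' * G 0 2
  | 2, 1 => (a' ^ 2 * b' ^ 2 - 1) * G 2 1 - a' ^ 2 * b' ^ 2 * ((a ^ 2 - 1) * (1 - b ^ 2)) * G 0 3
      - a' * b' * G 1 2
  | 2, 2 => -G 2 2
  | 2, 3 => b' * G 3 2 + (b' ^ 2 - 1) * G 2 3
  | 3, 0 => G 0 3
  | 3, 1 => b' * G 1 3
  | 3, 2 => b' * G 2 3
  | 3, 3 => b' ^ 2 * G 3 3

theorem Rpos_eq (G : Fin 4 → Fin 4 → K) (i j : Fin 4) : Rpos a b G i j = RposT a b G i j := by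
  fin_cases i <;> fin_cases j <;> rfl

theorem Rneg_eq (G : Fin 4 → Fin 4 → K) (i j : Fin 4) :
    Rneg a a' b b' G i j = RnegT a a' b b' G i j := by
  fin_cases i <;> fin_cases j <;> rfl

/-- the matrix of a crossing, entry by entry -/
def RmT (pos : Bool) (G : Fin 4 → Fin 4 → K) : Fin 4 → Fin 4 → K :=
  if pos then RposT a b G else RnegT a a' b b' G

theorem Rm_eq (pos : Bool) (G : Fin 4 → Fin 4 → K) :
    Rm a a' b b' pos G = RmT a a' b b' pos G := by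
  funext i j
  cases pos
  · simp only [Rm, RmT, Bool.false_eq_true, if_false]; exact Rneg_eq a a' b b' G i j
  · simp only [Rm, RmT, if_true]; exact Rpos_eq a b G i j

end

end LGAlt
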