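import Pool.Agent.LGAlt.Region
import Pool.Agent.LGAlt.Rows

/-!
# Crossings: the local identity
-/

namespace LGAlt

variable {K : Type*} [Field K] (a b : K)

theorem core_pos (ha : a ≠ 0) (p x l : St) (G : Fin 4 → Fin 4 → K) :
    ST a b x (fun c d => muT a b true p c (fun w1 => muT a b true d l
        (fun w2 => Rm a a⁻¹ b b⁻¹ true G w1 w2)))
      = XT a a⁻¹ b b⁻¹ true p x l (fun p' x' l' => ST a b x' (fun c d => muT a b true p' c
          (fun v1 => muT a b true d l' (fun v2 => G v1 v2)))) := by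
  simp only [Rm_eq]
  rcases p with ⟨_ | _, _ | _⟩ <;> rcases x with ⟨_ | _, _ | _⟩ <;> rcases l with ⟨_ | _, _ | _⟩ <;>
    ((try dsimp only [ST, muT, XT]) <;> (try simp only [RmT, RposT, if_true]) <;>
      first | ring1 | (field_simp; done) | (field_simp; ring1))

theorem core_neg (ha : a ≠ 0) (hb : b ≠ 0) (p x l : St) (G : Fin 4 → Fin 4 → K) :
    ST a b x (fun c d => muT a b true p c (fun w1 => muT a b true d l
        (fun w2 => Rm a a⁻¹ b b⁻¹ false G w1 w2)))
      = XT a a⁻¹ b b⁻¹ false p x l (fun p' x' l' => ST a b x' (fun c d => muT a b true p' c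
          (fun v1 => muT a b true d l' (fun v2 => G v1 v2)))) := by
  simp only [Rm_eq]
  rcases p with ⟨_ | _, _ | _⟩ <;> rcases x with ⟨_ | _, _ | _⟩ <;> rcases l with ⟨_ | _, _ | _⟩ <;>
    ((try dsimp only [ST, muT, XT]) <;> (try simp only [RmT, RnegT, Bool.false_eq_true, if_false]) <;>
      first | ring1 | (field_simp; done) | (field_simp; ring1))

end LGAlt
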