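import Mathlib

/-!
# Links–Gould invariants of alternating links: definitions

Oriented link diagrams are given by Morse words of `(1,1)`-tangles: reading from bottom to top, the
first and the last level consist of one upward strand, and each elementary piece is a crossing of two
adjacent upward strands, a cup or a cap.  Every oriented link diagram, with one strand cut open, is
planar isotopic to such a word (rotate every crossing so that both strands point upwards).
-/

namespace LGAlt

/-- Elementary pieces; strands are numbered from the left, starting with `0`.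
`cross k pos` : crossing of the upward strands `k`, `k+1`; `pos = true` when the strand going from the
bottom left to the top right passes over (a positive crossing), otherwise it passes under.
`cup k s` : creates two strands at the positions `k`, `k+1`, oriented (up, down) if `s = true` and
(down, up) if `s = false`.
`cap k s` : joins the strands `k`, `k+1`, oriented (up, down) if `s = true` and (down, up) if
`s = false`. -/
inductive Piece
  | cross (k : ℕ) (pos : Bool)
  | cup (k : ℕ) (s : Bool)
  | cap (k : ℕ) (s : Bool)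
  deriving DecidableEq

/-- A state when reading the word: the strands (orientation, `true` = up, and the label of the arc to
which the strand belongs), the next unused label, the number of closed components. -/
structure State where
  strands : List (Bool × ℕ)
  next : ℕ
  closed : ℕ

/-- joining the arcs with labels `c` and `d` -/
def relabel (c d : ℕ) (x : Bool × ℕ) : Bool × ℕ :=
  (x.1, if x.2 = c ∨ x.2 = d then min c d else x.2)

/-- One elementary piece. -/
inductive Step : Piece → State → State → Prop
  | cross (l₁ l₂ : List (Bool × ℕ)) (c d n m : ℕ) (pos : Bool) :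
      Step (.cross l₁.length pos) ⟨l₁ ++ (true, c) :: (true, d) :: l₂, n, m⟩
        ⟨l₁ ++ (true, d) :: (true, c) :: l₂, n, m⟩
  | cup (l₁ l₂ : List (Bool × ℕ)) (s : Bool) (n m : ℕ) :
      Step (.cup l₁.length s) ⟨l₁ ++ l₂, n, m⟩ ⟨l₁ ++ (s, n) :: (!s, n) :: l₂, n + 1, m⟩
  | cap_same (l₁ l₂ : List (Bool × ℕ)) (s : Bool) (c n m : ℕ) :
      Step (.cap l₁.length s) ⟨l₁ ++ (s, c) :: (!s, c) :: l₂, n, m⟩ ⟨l₁ ++ l₂, n, m + 1⟩
  | cap_ne (l₁ l₂ : List (Bool × ℕ)) (s : Bool) (c d n m : ℕ) (h : c ≠ d) :
      Step (.cap l₁.length s) ⟨l₁ ++ (s, c) :: (!s, d) :: l₂, n, m⟩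
        ⟨(l₁ ++ l₂).map (relabel c d), n, m⟩

/-- Reading a word. -/
inductive Path : List Piece → State → State → Prop
  | nil (x : State) : Path [] x x
  | cons (p : Piece) (w : List Piece) (x y z : State) : Step p x y → Path w y z → Path (p :: w) x z

/-- `w` is a diagram of a link with `μ` components: it starts and ends with one upward strand, and
there are `μ - 1` closed components besides the component of this strand. -/
def IsDiagram (w : List Piece) (μ : ℕ) : Prop :=
  ∃ c n m : ℕ, Path w ⟨[(true, 0)], 1, 0⟩ ⟨[(true, c)], n, m⟩ ∧ μ = m + 1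

/-- Alternation.  An arc leads from one crossing to the next one; in an alternating diagram it is an
over-crossing at one of its ends and an under-crossing at the other one.  Every strand carries the
label `true` if the end of its arc which is reached by following the strand upwards is an
over-crossing, and `false` if it is an under-crossing.  Hence at a crossing the over strand has the
label `true` below and `false` above the crossing, and the under strand has `false` below and `true`
above.  At a cup or a cap the two strands belong to the same arc and lead to different ends of it, so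
they carry different labels. -/
inductive AltStep : Piece → List Bool → List Bool → Prop
  | cross (l₁ l₂ : List Bool) (pos : Bool) :
      AltStep (.cross l₁.length pos) (l₁ ++ pos :: (!pos) :: l₂) (l₁ ++ pos :: (!pos) :: l₂)
  | cup (l₁ l₂ : List Bool) (s x : Bool) :
      AltStep (.cup l₁.length s) (l₁ ++ l₂) (l₁ ++ x :: (!x) :: l₂)
  | cap (l₁ l₂ : List Bool) (s x : Bool) :
      AltStep (.cap l₁.length s) (l₁ ++ x :: (!x) :: l₂) (l₁ ++ l₂)

/-- Labelling of a word. -/
inductive AltPath : List Piece → List Bool → List Bool → Prop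
  | nil (x : List Bool) : AltPath [] x x
  | cons (p : Piece) (w : List Piece) (x y z : List Bool) :
      AltStep p x y → AltPath w y z → AltPath (p :: w) x z

/-- The diagram is alternating: there is a labelling of the strands, with the same label for the
bottom and the top strand (the two ends of the cut arc). -/
def IsAlternating (w : List Piece) : Prop := ∃ x : Bool, AltPath w [x] [x]

section ring

variable {K : Type*} [CommRing K] (a a' b b' : K)

/-- The R-matrix of the Links–Gould invariant (the four dimensional representations of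
`U_q gl(2|1)`), `t₀ = a²`, `t₁ = b²`: `Rpos a b G i j` is the value of the bilinear form `G` on the
image of `e_i ⊗ e_j`, and `Rpos0 a G j` is its value for `i = 0`; for instance
`R (e_0 ⊗ e_1) = a e_1 ⊗ e_0`.
The vector `e_3` is rescaled so that no square root of `(t₀ - 1)(1 - t₁)` appears. -/
def Rpos0 (G : Fin 4 → Fin 4 → K) : Fin 4 → K :=
  ![a ^ 2 * G 0 0, a * G 1 0, a * G 2 0, G 3 0]

/-- the image of `e_1 ⊗ e_j` -/
def Rpos1 (G : Fin 4 → Fin 4 → K) : Fin 4 → K :=
  ![a * G 0 1 + (a ^ 2 - 1) * G 1 0,
    -G 1 1,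
    (a ^ 2 * b ^ 2 - 1) * G 1 2 - a * b * G 2 1 - a * b * ((a ^ 2 - 1) * (1 - b ^ 2)) * G 3 0,
    b * G 3 1]

/-- the image of `e_2 ⊗ e_j` -/
def Rpos2 (G : Fin 4 → Fin 4 → K) : Fin 4 → K :=
  ![a * G 0 2 + (a ^ 2 - 1) * G 2 0,
    -(a * b) * G 1 2 + (a ^ 2 - 1) * (1 - b ^ 2) * G 3 0,
    -G 2 2,
    b * G 3 2]

/-- the image of `e_3 ⊗ e_j` -/
def Rpos3 (G : Fin 4 → Fin 4 → K) : Fin 4 → K :=
  ![G 0 3 - a * b * G 1 2 + G 2 1 + (a ^ 2 - 1) * (1 - b ^ 2) * G 3 0,
    b * G 1 3 + (b ^ 2 - 1) * G 3 1,
    b * G 2 3 + (b ^ 2 - 1) * G 3 2,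
    b ^ 2 * G 3 3]

/-- the R-matrix -/
def Rpos (G : Fin 4 → Fin 4 → K) (i : Fin 4) : Fin 4 → K :=
  ![Rpos0 a G, Rpos1 a b G, Rpos2 a b G, Rpos3 a b G] i

/-- The inverse of the R-matrix, in the same form; `a' = a⁻¹`, `b' = b⁻¹`. -/
def Rneg0 (G : Fin 4 → Fin 4 → K) : Fin 4 → K :=
  ![a' ^ 2 * G 0 0,
    a' * G 1 0 + (a' ^ 2 - 1) * G 0 1,
    a' * G 2 0 + (a' ^ 2 - 1) * G 0 2,
    G 3 0 - a' ^ 2 * b' ^ 2 * G 2 1 + a' * b' * G 1 2
      + a' ^ 2 * b' ^ 2 * ((a ^ 2 - 1) * (1 - b ^ 2)) * G 0 3]

/-- the image of `e_1 ⊗ e_j` -/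
def Rneg1 (G : Fin 4 → Fin 4 → K) : Fin 4 → K :=
  ![a' * G 0 1,
    -G 1 1,
    -(a' * b') * G 2 1 + a' * b' * ((a ^ 2 - 1) * (1 - b ^ 2)) * G 0 3,
    b' * G 3 1 + (b' ^ 2 - 1) * G 1 3]

/-- the image of `e_2 ⊗ e_j` -/
def Rneg2 (G : Fin 4 → Fin 4 → K) : Fin 4 → K :=
  ![a' * G 0 2,
    (a' ^ 2 * b' ^ 2 - 1) * G 2 1 - a' ^ 2 * b' ^ 2 * ((a ^ 2 - 1) * (1 - b ^ 2)) * G 0 3
      - a' * b' * G 1 2,
    -G 2 2,
    b' * G 3 2 + (b' ^ 2 - 1) * G 2 3]

/-- the image of `e_3 ⊗ e_j` -/
def Rneg3 (G : Fin 4 → Fin 4 → K) : Fin 4 → K :=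
  ![G 0 3, b' * G 1 3, b' * G 2 3, b' ^ 2 * G 3 3]

/-- the inverse of the R-matrix -/
def Rneg (G : Fin 4 → Fin 4 → K) (i : Fin 4) : Fin 4 → K :=
  ![Rneg0 a a' b b' G, Rneg1 a a' b b' G, Rneg2 a a' b b' G, Rneg3 b' G] i

/-- the matrix of a crossing -/
def Rm (pos : Bool) (G : Fin 4 → Fin 4 → K) : Fin 4 → Fin 4 → K :=
  if pos then Rpos a b G else Rneg a a' b b' G

/-- weights of the cups -/
def cupW (s : Bool) : Fin 4 → K :=
  if s then fun _ => 1 else ![a ^ 2, -b' ^ 2, -a ^ 2, b' ^ 2]

/-- weights of the caps -/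
def capW (s : Bool) : Fin 4 → K :=
  if s then ![a' ^ 2, -b ^ 2, -a' ^ 2, b ^ 2] else fun _ => 1

end ring

section ops

variable {K : Type*} [CommRing K]

/-- `crossT M k F v` : the operator `M` acts on the factors `k`, `k+1` of the basis vector with the
indices `v`, and the linear form `F` is applied to the result -/
def crossT (M : (Fin 4 → Fin 4 → K) → Fin 4 → Fin 4 → K) :
    ℕ → (List (Fin 4) → K) → List (Fin 4) → K
  | 0, F, x :: y :: v => M (fun i j => F (i :: j :: v)) x y
  | 0, _, _ => 0
  | k + 1, F, x :: v => crossT M k (fun u => F (x :: u)) v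
  | _ + 1, _, [] => 0

/-- insertion of `∑ x, w x • e_x ⊗ e_x` at the position `k` -/
def cupT (w : Fin 4 → K) : ℕ → (List (Fin 4) → K) → List (Fin 4) → K
  | 0, F, v => ∑ x : Fin 4, w x * F (x :: x :: v)
  | k + 1, F, x :: v => cupT w k (fun u => F (x :: u)) v
  | _ + 1, _, [] => 0

/-- contraction of the factors `k`, `k+1` with the weights `w` -/
def capT (w : Fin 4 → K) : ℕ → (List (Fin 4) → K) → List (Fin 4) → K
  | 0, F, x :: y :: v => if x = y then w x * F v else 0
  | 0, _, _ => 0
  | k + 1, F, x :: v => capT w k (fun u => F (x :: u)) v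
  | _ + 1, _, [] => 0

/-- an elementary piece acts on a basis vector, and the linear form `F` is applied to the result -/
def pieceT (a a' b b' : K) : Piece → (List (Fin 4) → K) → List (Fin 4) → K
  | .cross k pos => crossT (Rm a a' b b' pos) k
  | .cup k s => cupT (cupW a b' s) k
  | .cap k s => capT (capW a' b s) k

/-- `value w v` is the coefficient of `e_0` in the image of the basis vector with the indices `v`
under the operator of the word `w` -/
def value (a a' b b' : K) : List Piece → List (Fin 4) → K
  | [], v => if v = [0] then 1 else 0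
  | p :: w, v => pieceT a a' b b' p (value a a' b b' w) v

end ops

/-- Laurent polynomials in `a = t₀^(1/2)` and `b = t₁^(1/2)` with integer coefficients. -/
abbrev L := AddMonoidAlgebra ℤ (ℤ × ℤ)

/-- the monomial `a^x b^y` -/
noncomputable def mon (x y : ℤ) : L := AddMonoidAlgebra.single (x, y) 1

/-- The Links–Gould invariant: the operator of the `(1,1)`-tangle is scalar, and this is the scalar
by which it acts on the first basis vector.  It is a polynomial in `t₀^{±1} = a^{±2}` and
`t₁^{±1} = b^{±2}`.  For instance it is `1` for the unknot, `-1 + t₀ + t₁ - t₀ t₁` for the positive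
Hopf link and `1 - t₀ - t₁ + t₀² + 2 t₀ t₁ + t₁² - t₀² t₁ - t₀ t₁²` for the positive trefoil; the
specialisations `t₁ = -1/t₀` and `t₁ = 1/t₀` are the Conway normalised `Δ(t₀²)` and `Δ(t₀)²`. -/
noncomputable def LG (w : List Piece) : L :=
  value (mon 1 0) (mon (-1) 0) (mon 0 1) (mon 0 (-1)) w [0]

end LGAlt
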