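import Pool.Agent.LGAlt.Region
import Pool.Agent.LGAlt.Rows

/-!
# Finite linear functionals and Fubini
-/

namespace LGAlt

variable {K : Type*} [CommRing K] {α β : Type*}

/-- a finite linear combination of evaluations -/
def FinL (Λ : (α → K) → K) : Prop :=
  ∃ L : List (K × α), ∀ f, Λ f = (L.map (fun c => c.1 * f c.2)).sum

namespace FinL

lemma zero : FinL (fun _ : α → K => (0 : K)) := ⟨[], fun _ => by simp⟩

lemma eval (x : α) : FinL (fun f : α → K => f x) := ⟨[(1, x)], fun _ => by simp⟩

lemma add {Λ Λ' : (α → K) → K} (h : FinL Λ) (h' : FinL Λ') : FinL (fun f => Λ f + Λ' f) := by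
  obtain ⟨L, hL⟩ := h
  obtain ⟨L', hL'⟩ := h'
  exact ⟨L ++ L', fun f => by simp [hL, hL']⟩

lemma const_mul {Λ : (α → K) → K} (c : K) (h : FinL Λ) : FinL (fun f => c * Λ f) := by
  obtain ⟨L, hL⟩ := h
  refine ⟨L.map (fun d => (c * d.1, d.2)), fun f => ?_⟩
  show c * Λ f = _
  rw [hL, List.map_map, ← List.sum_map_mul_left]
  congr 1
  refine List.map_congr_left fun d _ => ?_
  simp [mul_assoc]

lemma neg {Λ : (α → K) → K} (h : FinL Λ) : FinL (fun f => -Λ f) := by
  have := const_mul (-1) h
  simpa using this

lemma sub {Λ Λ' : (α → K) → K} (h : FinL Λ) (h' : FinL Λ') : FinL (fun f => Λ f - Λ' f) := by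
  have := add h (neg h')
  simpa [sub_eq_add_neg] using this

lemma map_add {Λ : (α → K) → K} (h : FinL Λ) (f g : α → K) :
    Λ (fun x => f x + g x) = Λ f + Λ g := by
  obtain ⟨L, hL⟩ := h
  rw [hL, hL, hL, ← List.sum_map_add]
  congr 1
  refine List.map_congr_left fun d _ => ?_
  ring

lemma map_mul {Λ : (α → K) → K} (h : FinL Λ) (c : K) (f : α → K) :
    Λ (fun x => c * f x) = c * Λ f := by
  obtain ⟨L, hL⟩ := h
  rw [hL, hL, ← List.sum_map_mul_left]
  congr 1
  refine List.map_congr_left fun d _ => ?_
  ring

lemma map_zero {Λ : (α → K) → K} (h : FinL Λ) : Λ (fun _ => 0) = 0 := by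
  obtain ⟨L, hL⟩ := h
  rw [hL]
  simp

/-- Fubini -/
lemma comm {Λ : (α → K) → K} {Λ' : (β → K) → K} (h : FinL Λ) (h' : FinL Λ') (H : α → β → K) :
    Λ (fun x => Λ' (fun y => H x y)) = Λ' (fun y => Λ (fun x => H x y)) := by
  obtain ⟨L, hL⟩ := h
  have h1 : (fun y => Λ (fun x => H x y)) = fun y => (L.map (fun c => c.1 * H c.2 y)).sum := by
    funext y; rw [hL]
  rw [hL, h1]
  clear hL h1
  induction L with
  | nil => simp [map_zero h']
  | cons c L ih =>
    simp only [List.map_cons, List.sum_cons]
    rw [ih, map_add h', map_mul h']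

/-- composition -/
lemma comp {Λ : (α → K) → K} {M : α → (β → K) → K} (h : FinL Λ) (hM : ∀ x, FinL (M x)) :
    FinL (fun f => Λ (fun x => M x f)) := by
  obtain ⟨L, hL⟩ := h
  have h1 : (fun f => Λ (fun x => M x f)) = fun f => (L.map (fun c => c.1 * M c.2 f)).sum := by
    funext f; rw [hL]
  rw [h1]
  clear hL h1
  induction L with
  | nil => simpa using zero
  | cons c L ih =>
    simp only [List.map_cons, List.sum_cons]
    exact add (const_mul _ (hM _)) ih

end FinL

section

variable (a a' b b' : K)

lemma finL_ST (x : St) : FinL (fun f : St × St → K => ST a b x (fun l r => f (l, r))) := by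
  rcases x with ⟨_ | _, _ | _⟩ <;> dsimp only [ST] <;>
    repeat' first | exact FinL.eval _ | exact FinL.zero | apply FinL.add | apply FinL.sub | apply FinL.const_mul

lemma finL_muT (e : Bool) (p l : St) : FinL (fun f : Fin 4 → K => muT a b e p l f) := by
  rcases p with ⟨_ | _, _ | _⟩ <;> rcases l with ⟨_ | _, _ | _⟩ <;> cases e <;> dsimp only [muT] <;>
    repeat' first | exact FinL.eval _ | exact FinL.zero | apply FinL.const_mul

lemma finL_MT (p y : St) : FinL (fun f : St → K => MT a' b' p y f) := by
  rcases p with ⟨_ | _, _ | _⟩ <;> rcases y with ⟨_ | _, _ | _⟩ <;> dsimp only [MT] <;>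
    repeat' first | exact FinL.eval _ | exact FinL.zero | apply FinL.const_mul

lemma finL_XT (pos : Bool) (p x y : St) :
    FinL (fun f : St × St × St → K => XT a a' b b' pos p x y (fun p' x' y' => f (p', x', y'))) := by
  rcases p with ⟨_ | _, _ | _⟩ <;> rcases x with ⟨_ | _, _ | _⟩ <;> rcases y with ⟨_ | _, _ | _⟩ <;>
    cases pos <;> dsimp only [XT] <;>
    repeat' first | exact FinL.eval _ | exact FinL.zero | apply FinL.add | apply FinL.sub | apply FinL.neg |
      apply FinL.const_mul

lemma finL_Rm (pos : Bool) (x y : Fin 4) :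
    FinL (fun f : Fin 4 × Fin 4 → K => Rm a a' b b' pos (fun i j => f (i, j)) x y) := by
  simp only [Rm_eq]
  fin_cases x <;> fin_cases y <;> cases pos <;>
    simp only [RmT, RposT, RnegT, Bool.false_eq_true, if_true, if_false, Fin.zero_eta, Fin.mk_one, Fin.reduceFinMk] <;>
    repeat' first | exact FinL.eval _ | exact FinL.zero | apply FinL.add | apply FinL.sub | apply FinL.neg |
      apply FinL.const_mul

lemma finL_crossR (pos : Bool) (k : ℕ) (X : List St) :
    FinL (fun f : List St → K => crossR a a' b b' pos k f X) := by
  induction k generalizing X with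
  | zero =>
    match X with
    | [] => simpa only [crossR] using FinL.zero
    | [_] => simpa only [crossR] using FinL.zero
    | [_, _] => simpa only [crossR] using FinL.zero
    | p :: x :: y :: xs =>
      simp only [crossR]
      exact FinL.comp (M := fun (t : St × St × St) (f : List St → K) => f (t.1 :: t.2.1 :: t.2.2 :: xs))
        (finL_XT a a' b b' pos p x y) (fun t => FinL.eval _)
  | succ k ih =>
    match X with
    | [] => simpa only [crossR] using FinL.zero
    | z :: xs =>
      simp only [crossR]
      obtain ⟨L, hL⟩ := ih xs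
      exact ⟨L.map (fun c => (c.1, z :: c.2)), fun f => by rw [hL]; simp [List.map_map, Function.comp_def]⟩

lemma finL_cupR (k : ℕ) (X : List St) : FinL (fun f : List St → K => cupR a b k f X) := by
  induction k generalizing X with
  | zero =>
    match X with
    | [] => simpa only [cupR] using FinL.zero
    | x :: xs =>
      simp only [cupR]
      exact FinL.comp (M := fun (t : St × St) (f : List St → K) => f (t.1 :: (true, true) :: t.2 :: xs))
        (finL_ST a b x) (fun t => FinL.eval _)
  | succ k ih =>
    match X with
    | [] => simpa only [cupR] using FinL.zero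
    | z :: xs =>
      simp only [cupR]
      obtain ⟨L, hL⟩ := ih xs
      exact ⟨L.map (fun c => (c.1, z :: c.2)), fun f => by rw [hL]; simp [List.map_map, Function.comp_def]⟩

lemma finL_capR (k : ℕ) (X : List St) : FinL (fun f : List St → K => capR a' b' k f X) := by
  induction k generalizing X with
  | zero =>
    match X with
    | [] => simpa only [capR] using FinL.zero
    | [_] => simpa only [capR] using FinL.zero
    | [_, _] => simpa only [capR] using FinL.zero
    | p :: x :: y :: xs =>
      simp only [capR]
      split_ifs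
      · exact FinL.comp (M := fun (z : St) (f : List St → K) => f (z :: xs))
          (finL_MT a' b' p y) (fun t => FinL.eval _)
      · exact FinL.zero
  | succ k ih =>
    match X with
    | [] => simpa only [capR] using FinL.zero
    | z :: xs =>
      simp only [capR]
      obtain ⟨L, hL⟩ := ih xs
      exact ⟨L.map (fun c => (c.1, z :: c.2)), fun f => by rw [hL]; simp [List.map_map, Function.comp_def]⟩

lemma finL_Phi (es : List Bool) (X : List St) :
    FinL (fun F : List (Fin 4) → K => Phi a b es X F) := by
  induction es generalizing X with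
  | nil =>
    match X with
    | [] => simpa only [Phi] using FinL.zero
    | [x] =>
      simp only [Phi]
      split_ifs
      · exact FinL.eval _
      · exact FinL.zero
    | _ :: _ :: _ => simpa only [Phi] using FinL.zero
  | cons e es ih =>
    match X with
    | [] => simpa only [Phi] using FinL.zero
    | [_] => simpa only [Phi] using FinL.zero
    | p :: x :: xs =>
      simp only [Phi]
      have h1 : ∀ (l r : St), FinL (fun F : List (Fin 4) → K =>
          muT a b e p l (fun v => Phi a b es (r :: xs) (fun u => F (v :: u)))) := by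
        intro l r
        refine FinL.comp (M := fun (v : Fin 4) (F : List (Fin 4) → K) =>
          Phi a b es (r :: xs) (fun u => F (v :: u))) (finL_muT a b e p l) (fun v => ?_)
        obtain ⟨L, hL⟩ := ih (r :: xs)
        exact ⟨L.map (fun c => (c.1, v :: c.2)), fun f => by rw [hL]; simp [List.map_map, Function.comp_def]⟩
      exact FinL.comp (M := fun (t : St × St) (F : List (Fin 4) → K) =>
          muT a b e p t.1 (fun v => Phi a b es (t.2 :: xs) (fun u => F (v :: u))))
        (finL_ST a b x) (fun t => h1 t.1 t.2)

end

end LGAlt
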