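import Pool.Agent.LGAlt.Phase

/-!
# The gauge
-/

namespace LGAlt

/-- the phase of `-1` -/
abbrev sg : Q := (2, 0)

/-- the phase of `-ab` -/
abbrev qq : Q := (0, 1)

/-- the phase of a strand -/
def zph (e : Bool) : Q := if e then (1, 0) else (1, 1)

lemma Ph.neg' {ψ v : Q} {x : L} (hx : Ph (ψ + (v + (2, 0))) x) : Ph (ψ + v) (-x) :=
  Ph.neg (by rwa [add_assoc])

lemma Ph.sub' {ψ v : Q} {x y : L} (hx : Ph (ψ + v) x) (hy : Ph (ψ + (v + (2, 0))) y) :
    Ph (ψ + v) (x - y) :=
  Ph.sub hx (by rwa [add_assoc])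

lemma Ph.leaf {κ ψ u v : Q} {c x : L} (hc : IsMono κ c) (hx : Ph (ψ + u) x) (h : v = κ + u) :
    Ph (ψ + v) (c * x) :=
  Ph.mono_mul hc hx (by rw [h]; abel)

lemma Ph.leaf1 {ψ u v : Q} {x : L} (hx : Ph (ψ + u) x) (h : v = u) : Ph (ψ + v) x := by
  rwa [h]

/-- number of holes of the first kind in three regions -/
def cnt1 (p x y : St) : ℕ := p.1.toNat + x.1.toNat + y.1.toNat

/-- number of holes of the second kind in three regions -/
def cnt2 (p x y : St) : ℕ := p.2.toNat + x.2.toNat + y.2.toNat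

/-- local gauge for the three regions at a crossing -/
def loc3 (pos : Bool) (p x y : St) : Q :=
  x.1.toNat • (-zph true + pos.toNat • sg) +
    x.2.toNat • (p.1.toNat • qq + zph true + (!pos).toNat • sg) +
    y.1.toNat • (-zph true - zph true + sg) +
    y.2.toNat • (p.1.toNat • qq + x.1.toNat • qq + zph true + zph true + sg)

lemma Ph.leafG {pos : Bool} {ψ : Q} {G : St → St → St → L} {p x y : St}
    (hG : ∀ p' x' y', cnt1 p' x' y' = cnt1 p x y → cnt2 p' x' y' = cnt2 p x y →
      Ph (ψ + loc3 pos p' x' y') (G p' x' y')) {κ v : Q} {c : L} {p' x' y' : St}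
    (hc : IsMono κ c) (h : (cnt1 p' x' y' = cnt1 p x y ∧ cnt2 p' x' y' = cnt2 p x y) ∧
      v = κ + loc3 pos p' x' y') : Ph (ψ + v) (c * G p' x' y') :=
  Ph.leaf hc (hG _ _ _ h.1.1 h.1.2) h.2

lemma Ph.leafG1 {pos : Bool} {ψ : Q} {G : St → St → St → L} {p x y : St}
    (hG : ∀ p' x' y', cnt1 p' x' y' = cnt1 p x y → cnt2 p' x' y' = cnt2 p x y →
      Ph (ψ + loc3 pos p' x' y') (G p' x' y')) {v : Q} {p' x' y' : St}
    (h : (cnt1 p' x' y' = cnt1 p x y ∧ cnt2 p' x' y' = cnt2 p x y) ∧
      v = loc3 pos p' x' y') : Ph (ψ + v) (G p' x' y') :=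
  Ph.leaf1 (hG _ _ _ h.1.1 h.1.2) h.2

theorem Ph_XT (a a' b b' : L) (ha : IsMono (1, 0) a) (ha' : IsMono (3, 0) a')
    (hb : IsMono (1, 1) b) (hb' : IsMono (3, 1) b') (pos : Bool) (p x y : St) (ψ : Q)
    (G : St → St → St → L)
    (hG : ∀ p' x' y', cnt1 p' x' y' = cnt1 p x y → cnt2 p' x' y' = cnt2 p x y →
      Ph (ψ + loc3 pos p' x' y') (G p' x' y')) :
    Ph (ψ + (sg + loc3 pos p x y)) (XT a a' b b' pos p x y G) := by
  rcases p with ⟨_ | _, _ | _⟩ <;> rcases x with ⟨_ | _, _ | _⟩ <;> rcases y with ⟨_ | _, _ | _⟩ <;>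
    cases pos <;> dsimp only [XT] <;>
    (repeat' first
      | with_reducible apply Ph.add
      | with_reducible apply Ph.sub'
      | with_reducible apply Ph.neg') <;>
    first
      | (with_reducible refine Ph.leafG1 hG ?_
         decide)
      | (with_reducible apply Ph.leafG hG
         · (repeat' first | with_reducible exact ha | with_reducible exact ha' |
            with_reducible exact hb | with_reducible exact hb' |
            with_reducible apply IsMono.sq | with_reducible apply IsMono.mul)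
         · decide)


lemma Ph.leafS {x : St} {ψ : Q} {H : St → St → L}
    (hH : ∀ l r : St, l.1.toNat + r.1.toNat = x.1.toNat → l.2.toNat + r.2.toNat = x.2.toNat →
      Ph (ψ + (l.1.toNat * r.2.toNat) • qq) (H l r)) {κ v : Q} {c : L} {l r : St}
    (hc : IsMono κ c) (h : (l.1.toNat + r.1.toNat = x.1.toNat ∧ l.2.toNat + r.2.toNat = x.2.toNat) ∧
      v = κ + (l.1.toNat * r.2.toNat) • qq) : Ph (ψ + v) (c * H l r) :=
  Ph.leaf hc (hH _ _ h.1.1 h.1.2) h.2

lemma Ph.leafS1 {x : St} {ψ : Q} {H : St → St → L}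
    (hH : ∀ l r : St, l.1.toNat + r.1.toNat = x.1.toNat → l.2.toNat + r.2.toNat = x.2.toNat →
      Ph (ψ + (l.1.toNat * r.2.toNat) • qq) (H l r)) {v : Q} {l r : St}
    (h : (l.1.toNat + r.1.toNat = x.1.toNat ∧ l.2.toNat + r.2.toNat = x.2.toNat) ∧
      v = (l.1.toNat * r.2.toNat) • qq) : Ph (ψ + v) (H l r) :=
  Ph.leaf1 (hH _ _ h.1.1 h.1.2) h.2

theorem Ph_ST (a b : L) (ha : IsMono (1, 0) a) (hb : IsMono (1, 1) b) (x : St) (ψ : Q)
    (H : St → St → L)
    (hH : ∀ l r : St, l.1.toNat + r.1.toNat = x.1.toNat → l.2.toNat + r.2.toNat = x.2.toNat →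
      Ph (ψ + (l.1.toNat * r.2.toNat) • qq) (H l r)) :
    Ph ψ (ST a b x H) := by
  have h0 : ψ = ψ + 0 := (add_zero ψ).symm
  rw [h0]
  rcases x with ⟨_ | _, _ | _⟩ <;> dsimp only [ST] <;>
    (repeat' first
      | with_reducible apply Ph.add
      | with_reducible apply Ph.sub'
      | with_reducible apply Ph.neg') <;>
    first
      | (with_reducible refine Ph.leafS1 hH ?_
         decide)
      | (with_reducible apply Ph.leafS hH
         · (repeat' first | with_reducible exact ha | with_reducible exact hb |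
            with_reducible apply IsMono.sq | with_reducible apply IsMono.mul)
         · decide)

theorem Ph_MT (a' b' : L) (ha' : IsMono (3, 0) a') (hb' : IsMono (3, 1) b') (p y : St) (ψ : Q)
    (H : St → L)
    (hH : ∀ z : St, z.1.toNat + 1 = p.1.toNat + y.1.toNat →
      z.2.toNat + 1 = p.2.toNat + y.2.toNat → Ph ψ (H z)) :
    Ph (ψ + (y.1.toNat + y.2.toNat * (1 + p.1.toNat) + (p.1.toNat + y.1.toNat + 1)) • qq)
      (MT a' b' p y H) := by
  have key : ∀ (z : St) (κ v : Q) (c : L), IsMono κ c → z.1.toNat + 1 = p.1.toNat + y.1.toNat →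
      z.2.toNat + 1 = p.2.toNat + y.2.toNat → v = κ → Ph (ψ + v) (c * H z) := by
    intro z κ v c hc h1 h1' h2
    refine Ph.leaf (u := 0) hc ?_ (by rw [h2, add_zero])
    rw [add_zero]
    exact hH z h1 h1'
  have key1 : ∀ (z : St) (v : Q), z.1.toNat + 1 = p.1.toNat + y.1.toNat →
      z.2.toNat + 1 = p.2.toNat + y.2.toNat → v = 0 → Ph (ψ + v) (H z) := by
    intro z v h1 h1' h2
    rw [h2, add_zero]
    exact hH z h1 h1'
  have hab : IsMono (3 + 3, 0 + 1) (a' * b') := IsMono.mul ha' hb'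
  rcases p with ⟨_ | _, _ | _⟩ <;> rcases y with ⟨_ | _, _ | _⟩ <;> dsimp only [MT] <;>
    first
      | exact Ph.zero _
      | exact key1 _ _ (by decide) (by decide) (by decide)
      | (rw [neg_mul]; refine Ph.neg' (key _ _ _ _ hab (by decide) (by decide) (by decide)))

/-- number of holes of the first kind -/
def N1 : List St → ℕ
  | [] => 0
  | x :: xs => x.1.toNat + N1 xs

/-- The gauge of a list of regions, each of them preceded by a strand; `F1`, `F2` are the phases of
holes of the two kinds in the region in front of the first strand. -/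
def gT : Q → Q → List Bool → List Bool → List St → Q
  | F1, F2, e :: es, l :: ls, x :: xs =>
      x.1.toNat • (F1 - zph e + l.toNat • sg) + x.2.toNat • (F2 + zph e + (!l).toNat • sg) +
        gT (F1 - zph e + l.toNat • sg) (F2 + zph e + (!l).toNat • sg + x.1.toNat • qq) es ls xs
  | _, _, _, _, _ => 0

/-- the gauge of a list of regions -/
def gR (F1 F2 : Q) (es ls : List Bool) : List St → Q
  | x :: xs => x.1.toNat • F1 + x.2.toNat • F2 + gT F1 (F2 + x.1.toNat • qq) es ls xs
  | [] => 0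

lemma two_qq : (2 : ℕ) • qq = 0 := by decide

lemma gT_shift (F1 F2 : Q) (es ls : List Bool) (xs : List St) (h : xs.length ≤ es.length)
    (h' : xs.length ≤ ls.length) :
    gT (F1 + qq) F2 es ls xs = gT F1 F2 es ls xs + N1 xs • qq := by
  induction xs generalizing F1 F2 es ls with
  | nil => cases es <;> cases ls <;> simp [gT, N1]
  | cons x xs ih =>
    match es, ls, h, h' with
    | e :: es, l :: ls, h, h' =>
      simp only [gT, N1]
      have h1 : F1 + qq - zph e + l.toNat • sg = F1 - zph e + l.toNat • sg + qq := by abel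
      rw [h1, ih _ _ _ _ (by simpa using h) (by simpa using h')]
      module

lemma sg_add (l : Bool) : l.toNat • sg + (!l).toNat • sg = sg := by cases l <;> decide

end LGAlt
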