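import Pool.Agent.LGAlt.Region

/-!
# Local identities for splittings, cups and caps
-/

namespace LGAlt

variable {K : Type*} [Field K] (a b : K)

theorem ST_XT (ha : a ≠ 0) (hb : b ≠ 0) (pos : Bool) (z x y : St) (H : St → St → St → St → K) :
    ST a b z (fun l r => XT a a⁻¹ b b⁻¹ pos r x y (fun r' x' y' => H l r' x' y'))
      = XT a a⁻¹ b b⁻¹ pos z x y (fun z' x' y' => ST a b z' (fun l r' => H l r' x' y')) := by
  rcases z with ⟨_ | _, _ | _⟩ <;> rcases x with ⟨_ | _, _ | _⟩ <;> rcases y with ⟨_ | _, _ | _⟩ <;> cases pos <;>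
    ((try dsimp only [ST, XT]) <;> first | ring1 | (field_simp; done) | (field_simp; ring1))

theorem ST_ST (z : St) (H : St → St → St → K) :
    ST a b z (fun l r => ST a b r (fun q r2 => H l q r2))
      = ST a b z (fun y r2 => ST a b y (fun l q => H l q r2)) := by
  rcases z with ⟨_ | _, _ | _⟩ <;> (try dsimp only [ST]) <;> ring1

theorem XT_ST (ha : a ≠ 0) (hb : b ≠ 0) (pos : Bool) (z x y : St) (H : St → St → St → St → K) :
    ST a b y (fun l r => XT a a⁻¹ b b⁻¹ pos z x l (fun z' x' l' => H z' x' l' r))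
      = XT a a⁻¹ b b⁻¹ pos z x y (fun z' x' y' => ST a b y' (fun l' r => H z' x' l' r)) := by
  rcases z with ⟨_ | _, _ | _⟩ <;> rcases x with ⟨_ | _, _ | _⟩ <;> rcases y with ⟨_ | _, _ | _⟩ <;> cases pos <;>
    ((try dsimp only [ST, XT]) <;> first | ring1 | (field_simp; done) | (field_simp; ring1))

theorem cup_local (hb : b ≠ 0) (s : Bool) (y : St) (G : Fin 4 → Fin 4 → K) :
    ST a b y (fun l q => ST a b (true, true) (fun c d => muT a b s l c (fun v1 => muT a b (!s) d q
        (fun v2 => G v1 v2))))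
      = if y = (false, false) then kap a b * ∑ v, cupW a b⁻¹ s v * G v v else 0 := by
  rcases y with ⟨_ | _, _ | _⟩ <;> cases s <;>
    simp [ST, muT, cupW, kap, Fin.sum_univ_four] <;>
    first | ring1 | (field_simp; done) | (field_simp; ring1)

/-- pairing of the right part `p` and the left part `l` of two regions meeting at a cap -/
def eta (p l : St) : K :=
  match p, l with
  | (false, false), (true, true) => a * b ^ 2 * (a ^ 2 - 1)
  | (true, true), (false, false) => a * b ^ 2 * (a ^ 2 - 1)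
  | (true, false), (false, true) => a * b ^ 2 * (a ^ 2 - 1)
  | (false, true), (true, false) => -(b * (a ^ 2 - 1))
  | _, _ => 0

theorem cap_local (ha : a ≠ 0) (hb : b ≠ 0) (s : Bool) (p x l : St) (G : K) :
    ST a b x (fun c d => muT a b s p c (fun v1 => muT a b (!s) d l
        (fun v2 => if v1 = v2 then capW a⁻¹ b s v1 * G else 0)))
      = if x = (false, false) then eta a b p l * G else 0 := by
  rcases p with ⟨_ | _, _ | _⟩ <;> rcases x with ⟨_ | _, _ | _⟩ <;> rcases l with ⟨_ | _, _ | _⟩ <;>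
    cases s <;> simp [ST, muT, capW, eta] <;>
    first | ring1 | (field_simp; done) | (field_simp; ring1)

theorem eta_ST (ha : a ≠ 0) (hb : b ≠ 0) (p y : St) (H : St → K) :
    ST a b y (fun l r => eta a b p l * H r) = kap a b * MT a⁻¹ b⁻¹ p y H := by
  rcases p with ⟨_ | _, _ | _⟩ <;> rcases y with ⟨_ | _, _ | _⟩ <;>
    simp [ST, MT, eta, kap] <;>
    first | ring1 | (field_simp; done) | (field_simp; ring1)

theorem ST_MT (ha : a ≠ 0) (hb : b ≠ 0) (z y : St) (H : St → St → K) :
    ST a b z (fun l r => MT a⁻¹ b⁻¹ r y (fun z' => H l z')) = MT a⁻¹ b⁻¹ z y (fun z' => ST a b z' H) := by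
  rcases z with ⟨_ | _, _ | _⟩ <;> rcases y with ⟨_ | _, _ | _⟩ <;>
    simp [ST, MT] <;>
    first | ring1 | (field_simp; done) | (field_simp; ring1)
end LGAlt
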