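import Pool.Agent.LGAlt.FinL
import Pool.Agent.LGAlt.Local
import Pool.Agent.LGAlt.CoreX

/-!
# The region model intertwines the operators
-/

namespace LGAlt

section

variable {K : Type*} [CommRing K] (a a' b b' : K) {β : Type*}

lemma ST_comm {Λ : (β → K) → K} (h : FinL Λ) (x : St) (H : St → St → β → K) :
    ST a b x (fun l r => Λ (fun y => H l r y)) = Λ (fun y => ST a b x (fun l r => H l r y)) :=
  FinL.comm (finL_ST a b x) h (fun t y => H t.1 t.2 y)

lemma muT_comm {Λ : (β → K) → K} (h : FinL Λ) (e : Bool) (p l : St) (H : Fin 4 → β → K) :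
    muT a b e p l (fun v => Λ (fun y => H v y)) = Λ (fun y => muT a b e p l (fun v => H v y)) :=
  FinL.comm (finL_muT a b e p l) h H

lemma ST_mul (x : St) (c : K) (H : St → St → K) :
    ST a b x (fun l r => c * H l r) = c * ST a b x H :=
  FinL.map_mul (finL_ST a b x) c (fun t => H t.1 t.2)

lemma muT_mul (e : Bool) (p l : St) (c : K) (H : Fin 4 → K) :
    muT a b e p l (fun v => c * H v) = c * muT a b e p l H :=
  FinL.map_mul (finL_muT a b e p l) c H

lemma ST_zero (x : St) : ST a b x (fun _ _ => 0) = 0 := FinL.map_zero (finL_ST a b x)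

lemma muT_zero (e : Bool) (p l : St) : muT a b e p l (fun _ => 0) = 0 :=
  FinL.map_zero (finL_muT a b e p l)

lemma ST_counit (x : St) (g : St → K) :
    ST a b x (fun y r => if y = (false, false) then g r else 0) = g x := by
  rcases x with ⟨_ | _, _ | _⟩ <;> simp [ST]

/-- splitting the first region of a list -/
def STh : List St → (St → List St → K) → K
  | x :: xs, H => ST a b x (fun l r => H l (r :: xs))
  | [], _ => 0

lemma Phi_cons (e : Bool) (es : List Bool) (p : St) (X : List St) (F : List (Fin 4) → K) :
    Phi a b (e :: es) (p :: X) F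
      = STh a b X (fun l Y => muT a b e p l (fun v => Phi a b es Y (fun u => F (v :: u)))) := by
  cases X with
  | nil => simp [Phi, STh]
  | cons x xs => simp [Phi, STh]

end

section

variable {K : Type*} [Field K] (a b : K)

lemma ST_crossR (ha : a ≠ 0) (hb : b ≠ 0) (pos : Bool) (k : ℕ) (x : St) (xs : List St)
    (hk : k + 2 ≤ xs.length) (H : St → List St → K) :
    ST a b x (fun l r => crossR a a⁻¹ b b⁻¹ pos k (fun X' => H l X') (r :: xs))
      = crossR a a⁻¹ b b⁻¹ pos k (fun X' => STh a b X' H) (x :: xs) := by
  cases k with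
  | zero =>
    match xs, hk with
    | x2 :: y2 :: xs2, _ =>
      simp only [crossR, STh]
      exact ST_XT a b ha hb pos x x2 y2 (fun l r' x' y' => H l (r' :: x' :: y' :: xs2))
  | succ k =>
    simp only [crossR, STh]
    exact ST_comm a b (finL_crossR a a⁻¹ b b⁻¹ pos k xs) x (fun l r X => H l (r :: X))

lemma ST_cupR (k : ℕ) (x : St) (xs : List St) (H : St → List St → K) :
    ST a b x (fun l r => cupR a b k (fun X' => H l X') (r :: xs))
      = cupR a b k (fun X' => STh a b X' H) (x :: xs) := by
  cases k with
  | zero =>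
    simp only [cupR, STh]
    exact ST_ST a b x (fun l q r2 => H l (q :: (true, true) :: r2 :: xs))
  | succ k =>
    simp only [cupR, STh]
    exact ST_comm a b (finL_cupR a b k xs) x (fun l r X => H l (r :: X))

lemma ST_capR (ha : a ≠ 0) (hb : b ≠ 0) (k : ℕ) (x : St) (xs : List St)
    (H : St → List St → K) :
    ST a b x (fun l r => capR a⁻¹ b⁻¹ k (fun X' => H l X') (r :: xs))
      = capR a⁻¹ b⁻¹ k (fun X' => STh a b X' H) (x :: xs) := by
  cases k with
  | zero =>
    match xs with
    | x2 :: y2 :: xs2 =>
      simp only [capR, STh]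
      split_ifs
      · exact ST_MT a b ha hb x y2 (fun l z => H l (z :: xs2))
      · exact ST_zero a b x
    | [] => simp only [capR]; exact ST_zero a b x
    | [_] => simp only [capR]; exact ST_zero a b x
  | succ k =>
    simp only [capR, STh]
    exact ST_comm a b (finL_capR a⁻¹ b⁻¹ k xs) x (fun l r X => H l (r :: X))

/-- The crossing intertwiner. -/
theorem inter_cross (ha : a ≠ 0) (hb : b ≠ 0) (pos : Bool) (l₁ l₂ : List Bool) (X : List St)
    (hX : X.length = (l₁ ++ true :: true :: l₂).length + 1) (F : List (Fin 4) → K) :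
    Phi a b (l₁ ++ true :: true :: l₂) X (crossT (Rm a a⁻¹ b b⁻¹ pos) l₁.length F)
      = crossR a a⁻¹ b b⁻¹ pos l₁.length
          (fun X' => Phi a b (l₁ ++ true :: true :: l₂) X' F) X := by
  induction l₁ generalizing X F with
  | nil =>
    match X, hX with
    | p :: x :: y :: xs, _ =>
      simp only [List.nil_append, List.length_nil, crossR, Phi, crossT]
      set G : St → Fin 4 → Fin 4 → K := fun r i j => Phi a b l₂ (r :: xs) (fun u => F (i :: j :: u))
        with hG
      have h1 : ∀ (r : St) (v1 v2 : Fin 4),
          Phi a b l₂ (r :: xs) (fun u => Rm a a⁻¹ b b⁻¹ pos (fun i j => F (i :: j :: u)) v1 v2)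
            = Rm a a⁻¹ b b⁻¹ pos (G r) v1 v2 := by
        intro r v1 v2
        exact FinL.comm (finL_Phi a b l₂ (r :: xs)) (finL_Rm a a⁻¹ b b⁻¹ pos v1 v2)
          (fun u t => F (t.1 :: t.2 :: u))
      simp only [h1]
      have h2 : ∀ (p x y : St) (M : St → Fin 4 → Fin 4 → K),
          ST a b x (fun l r => muT a b true p l (fun v1 => ST a b y (fun l2 r2 =>
            muT a b true r l2 (fun v2 => M r2 v1 v2))))
          = ST a b y (fun l2 r2 => ST a b x (fun l r => muT a b true p l (fun v1 =>
            muT a b true r l2 (fun v2 => M r2 v1 v2)))) := by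
        intro p x y M
        have e1 : ∀ l r, muT a b true p l (fun v1 => ST a b y (fun l2 r2 =>
            muT a b true r l2 (fun v2 => M r2 v1 v2)))
            = ST a b y (fun l2 r2 => muT a b true p l (fun v1 =>
              muT a b true r l2 (fun v2 => M r2 v1 v2))) := by
          intro l r
          exact (muT_comm a b (finL_ST a b y) true p l
            (fun v1 t => muT a b true r t.1 (fun v2 => M t.2 v1 v2)))
        simp only [e1]
        exact ST_comm a b (finL_ST a b y) x (fun l r t => muT a b true p l (fun v1 =>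
            muT a b true r t.1 (fun v2 => M t.2 v1 v2)))
      rw [h2 p x y (fun r2 v1 v2 => Rm a a⁻¹ b b⁻¹ pos (G r2) v1 v2)]
      have h3 : ∀ l2 r2, ST a b x (fun l r => muT a b true p l (fun v1 =>
            muT a b true r l2 (fun v2 => Rm a a⁻¹ b b⁻¹ pos (G r2) v1 v2)))
          = XT a a⁻¹ b b⁻¹ pos p x l2 (fun p' x' l' => ST a b x' (fun c d => muT a b true p' c
          (fun v1 => muT a b true d l' (fun v2 => G r2 v1 v2)))) := by
        intro l2 r2
        cases pos
        · exact core_neg a b ha hb p x l2 (G r2)
        · exact core_pos a b ha p x l2 (G r2)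
      simp only [h3]
      rw [XT_ST a b ha hb pos p x y (fun p' x' l' r2 => ST a b x' (fun c d => muT a b true p' c
          (fun v1 => muT a b true d l' (fun v2 => G r2 v1 v2))))]
      congr 1
      funext p' x' y'
      exact (h2 p' x' y' G).symm
  | cons e l₁ ih =>
    match X, hX with
    | p :: x :: xs, hX =>
      simp only [List.cons_append, List.length_cons, crossR, Phi, crossT]
      have h1 : ∀ (r : St) (v : Fin 4), Phi a b (l₁ ++ true :: true :: l₂) (r :: xs)
            (fun u => crossT (Rm a a⁻¹ b b⁻¹ pos) l₁.length (fun u => F (v :: u)) u)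
          = crossR a a⁻¹ b b⁻¹ pos l₁.length
            (fun X' => Phi a b (l₁ ++ true :: true :: l₂) X' (fun u => F (v :: u))) (r :: xs) := by
        intro r v
        refine ih (r :: xs) ?_ (fun u => F (v :: u))
        simpa using hX
      simp only [h1]
      have h2 : ∀ l r, muT a b e p l (fun v => crossR a a⁻¹ b b⁻¹ pos l₁.length
            (fun X' => Phi a b (l₁ ++ true :: true :: l₂) X' (fun u => F (v :: u))) (r :: xs))
          = crossR a a⁻¹ b b⁻¹ pos l₁.length (fun X' => muT a b e p l (fun v =>
              Phi a b (l₁ ++ true :: true :: l₂) X' (fun u => F (v :: u)))) (r :: xs) := by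
        intro l r
        exact muT_comm a b (finL_crossR a a⁻¹ b b⁻¹ pos l₁.length (r :: xs)) e p l
          (fun v X' => Phi a b (l₁ ++ true :: true :: l₂) X' (fun u => F (v :: u)))
      simp only [h2]
      rw [ST_crossR a b ha hb pos l₁.length x xs (by simp at hX; omega)
        (fun l X' => muT a b e p l (fun v =>
              Phi a b (l₁ ++ true :: true :: l₂) X' (fun u => F (v :: u))))]
      congr 1
      funext X'
      rw [Phi_cons]

/-- The cup intertwiner. -/
theorem inter_cup (hb : b ≠ 0) (s : Bool) (l₁ l₂ : List Bool) (X : List St)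
    (hX : X.length = (l₁ ++ l₂).length + 1) (F : List (Fin 4) → K) :
    kap a b * Phi a b (l₁ ++ l₂) X (cupT (cupW a b⁻¹ s) l₁.length F)
      = cupR a b l₁.length (fun X' => Phi a b (l₁ ++ s :: (!s) :: l₂) X' F) X := by
  induction l₁ generalizing X F with
  | nil =>
    match X, hX with
    | x :: xs, _ =>
      simp only [List.nil_append, List.length_nil, cupR, Phi]
      obtain ⟨P, hP⟩ : ∃ P : St → Fin 4 → Fin 4 → K, ∀ r i j,
        Phi a b l₂ (r :: xs) (fun u => F (i :: j :: u)) = P r i j := ⟨_, fun _ _ _ => rfl⟩
      simp only [hP]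
      have h1 : ∀ l r, ST a b (true, true) (fun c d => muT a b s l c (fun v1 => ST a b r (fun q r2 =>
            muT a b (!s) d q (fun v2 => P r2 v1 v2))))
          = ST a b r (fun q r2 => ST a b (true, true) (fun c d => muT a b s l c (fun v1 =>
            muT a b (!s) d q (fun v2 => P r2 v1 v2)))) := by
        intro l r
        have e1 : ∀ c d, muT a b s l c (fun v1 => ST a b r (fun q r2 =>
            muT a b (!s) d q (fun v2 => P r2 v1 v2)))
            = ST a b r (fun q r2 => muT a b s l c (fun v1 =>
            muT a b (!s) d q (fun v2 => P r2 v1 v2))) := by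
          intro c d
          exact muT_comm a b (finL_ST a b r) s l c
            (fun v1 t => muT a b (!s) d t.1 (fun v2 => P t.2 v1 v2))
        simp only [e1]
        exact ST_comm a b (finL_ST a b r) (true, true) (fun c d t => muT a b s l c (fun v1 =>
            muT a b (!s) d t.1 (fun v2 => P t.2 v1 v2)))
      simp only [h1]
      rw [ST_ST a b x (fun l q r2 => ST a b (true, true) (fun c d => muT a b s l c (fun v1 =>
            muT a b (!s) d q (fun v2 => P r2 v1 v2))))]
      have h2 : ∀ y r2, ST a b y (fun l q => ST a b (true, true) (fun c d => muT a b s l c (fun v1 =>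
            muT a b (!s) d q (fun v2 => P r2 v1 v2))))
          = if y = (false, false) then kap a b * ∑ v, cupW a b⁻¹ s v * P r2 v v else 0 :=
        fun y r2 => cup_local a b hb s y (P r2)
      simp only [h2]
      rw [ST_counit a b x (fun r2 => kap a b * ∑ v, cupW a b⁻¹ s v * P r2 v v)]
      congr 1
      simp only [cupT, Fin.sum_univ_four, ← hP]
      have hL := finL_Phi a b l₂ (x :: xs)
      rw [FinL.map_add hL, FinL.map_add hL, FinL.map_add hL, FinL.map_mul hL, FinL.map_mul hL,
        FinL.map_mul hL, FinL.map_mul hL]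
  | cons e l₁ ih =>
    match X, hX with
    | p :: x :: xs, hX =>
      simp only [List.cons_append, List.length_cons, cupR, Phi, cupT]
      rw [← ST_mul]
      have h1 : ∀ l r, kap a b * muT a b e p l (fun v => Phi a b (l₁ ++ l₂) (r :: xs)
            (fun u => cupT (cupW a b⁻¹ s) l₁.length (fun u => F (v :: u)) u))
          = cupR a b l₁.length (fun X' => muT a b e p l (fun v =>
              Phi a b (l₁ ++ s :: (!s) :: l₂) X' (fun u => F (v :: u)))) (r :: xs) := by
        intro l r
        rw [← muT_mul]
        have e1 : ∀ v, kap a b * Phi a b (l₁ ++ l₂) (r :: xs)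
            (fun u => cupT (cupW a b⁻¹ s) l₁.length (fun u => F (v :: u)) u)
            = cupR a b l₁.length (fun X' => Phi a b (l₁ ++ s :: (!s) :: l₂) X'
              (fun u => F (v :: u))) (r :: xs) := by
          intro v
          exact ih (r :: xs) (by simpa using hX) (fun u => F (v :: u))
        simp only [e1]
        exact muT_comm a b (finL_cupR a b l₁.length (r :: xs)) e p l
          (fun v X' => Phi a b (l₁ ++ s :: (!s) :: l₂) X' (fun u => F (v :: u)))
      simp only [h1]
      rw [ST_cupR a b l₁.length x xs (fun l X' => muT a b e p l (fun v =>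
              Phi a b (l₁ ++ s :: (!s) :: l₂) X' (fun u => F (v :: u))))]
      congr 1
      funext X'
      rw [Phi_cons]

/-- The cap intertwiner. -/
theorem inter_cap (ha : a ≠ 0) (hb : b ≠ 0) (s : Bool) (l₁ l₂ : List Bool) (X : List St)
    (hX : X.length = (l₁ ++ s :: (!s) :: l₂).length + 1) (F : List (Fin 4) → K) :
    Phi a b (l₁ ++ s :: (!s) :: l₂) X (capT (capW a⁻¹ b s) l₁.length F)
      = kap a b * capR a⁻¹ b⁻¹ l₁.length (fun X' => Phi a b (l₁ ++ l₂) X' F) X := by
  induction l₁ generalizing X F with
  | nil =>
    match X, hX with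
    | p :: x :: y :: xs, _ =>
      simp only [List.nil_append, List.length_nil, capR, Phi, capT]
      have h1 : ∀ (r : St) (v1 v2 : Fin 4), Phi a b l₂ (r :: xs)
            (fun u => if v1 = v2 then capW a⁻¹ b s v1 * F u else 0)
          = if v1 = v2 then capW a⁻¹ b s v1 * Phi a b l₂ (r :: xs) F else 0 := by
        intro r v1 v2
        split_ifs
        · exact FinL.map_mul (finL_Phi a b l₂ (r :: xs)) _ _
        · exact FinL.map_zero (finL_Phi a b l₂ (r :: xs))
      simp only [h1]
      have e1 : ∀ c d, muT a b s p c (fun v1 => ST a b y (fun q r2 =>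
            muT a b (!s) d q (fun v2 => if v1 = v2 then capW a⁻¹ b s v1 * Phi a b l₂ (r2 :: xs) F
              else 0)))
          = ST a b y (fun q r2 => muT a b s p c (fun v1 =>
            muT a b (!s) d q (fun v2 => if v1 = v2 then capW a⁻¹ b s v1 * Phi a b l₂ (r2 :: xs) F
              else 0))) := by
        intro c d
        exact muT_comm a b (finL_ST a b y) s p c
            (fun v1 t => muT a b (!s) d t.1 (fun v2 => if v1 = v2 then
              capW a⁻¹ b s v1 * Phi a b l₂ (t.2 :: xs) F else 0))
      simp only [e1]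
      have e2 : ST a b x (fun c d => ST a b y (fun q r2 => muT a b s p c (fun v1 =>
            muT a b (!s) d q (fun v2 => if v1 = v2 then capW a⁻¹ b s v1 * Phi a b l₂ (r2 :: xs) F
              else 0))))
          = ST a b y (fun q r2 => ST a b x (fun c d => muT a b s p c (fun v1 =>
            muT a b (!s) d q (fun v2 => if v1 = v2 then capW a⁻¹ b s v1 * Phi a b l₂ (r2 :: xs) F
              else 0)))) :=
        ST_comm a b (finL_ST a b y) x (fun c d t => muT a b s p c (fun v1 =>
            muT a b (!s) d t.1 (fun v2 => if v1 = v2 then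
              capW a⁻¹ b s v1 * Phi a b l₂ (t.2 :: xs) F else 0)))
      rw [e2]
      have e3 : ∀ q r2, ST a b x (fun c d => muT a b s p c (fun v1 =>
            muT a b (!s) d q (fun v2 => if v1 = v2 then capW a⁻¹ b s v1 * Phi a b l₂ (r2 :: xs) F
              else 0)))
          = if x = (false, false) then eta a b p q * Phi a b l₂ (r2 :: xs) F else 0 :=
        fun q r2 => cap_local a b ha hb s p x q _
      simp only [e3]
      split_ifs
      · exact eta_ST a b ha hb p y (fun z => Phi a b l₂ (z :: xs) F)
      · rw [ST_zero, mul_zero]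
  | cons e l₁ ih =>
    match X, hX with
    | p :: x :: xs, hX =>
      simp only [List.cons_append, List.length_cons, capR, Phi, capT]
      have h1 : ∀ l r, muT a b e p l (fun v => Phi a b (l₁ ++ s :: (!s) :: l₂) (r :: xs)
            (fun u => capT (capW a⁻¹ b s) l₁.length (fun u => F (v :: u)) u))
          = kap a b * capR a⁻¹ b⁻¹ l₁.length (fun X' => muT a b e p l (fun v =>
              Phi a b (l₁ ++ l₂) X' (fun u => F (v :: u)))) (r :: xs) := by
        intro l r
        have e1 : ∀ v, Phi a b (l₁ ++ s :: (!s) :: l₂) (r :: xs)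
            (fun u => capT (capW a⁻¹ b s) l₁.length (fun u => F (v :: u)) u)
            = kap a b * capR a⁻¹ b⁻¹ l₁.length (fun X' => Phi a b (l₁ ++ l₂) X'
              (fun u => F (v :: u))) (r :: xs) := by
          intro v
          exact ih (r :: xs) (by simpa using hX) (fun u => F (v :: u))
        simp only [e1]
        rw [muT_mul]
        congr 1
        exact muT_comm a b (finL_capR a⁻¹ b⁻¹ l₁.length (r :: xs)) e p l
          (fun v X' => Phi a b (l₁ ++ l₂) X' (fun u => F (v :: u)))
      simp only [h1]
      rw [ST_mul]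
      congr 1
      rw [ST_capR a b ha hb l₁.length x xs (fun l X' => muT a b e p l (fun v =>
              Phi a b (l₁ ++ l₂) X' (fun u => F (v :: u))))]
      congr 1
      funext X'
      rw [Phi_cons]

end

end LGAlt
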