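import Pool.Agent.LGAlt.Gauge

/-!
# Phases of the elementary pieces
-/

namespace LGAlt

section

variable (a a' b b' : L)

lemma gR_cons (F1 F2 : Q) (e l : Bool) (es ls : List Bool) (z : St) (xs : List St) (h : xs ≠ []) :
    gR F1 F2 (e :: es) (l :: ls) (z :: xs) = z.1.toNat • F1 + z.2.toNat • F2 +
      gR (F1 - zph e + l.toNat • sg) (F2 + z.1.toNat • qq + zph e + (!l).toNat • sg) es ls xs := by
  cases xs with
  | nil => exact absurd rfl h
  | cons x xs => simp only [gR, gT]

lemma gR_cross (F1 F2 : Q) (pos : Bool) (es ls : List Bool) (p x y : St) (xs : List St) :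
    gR F1 F2 (true :: true :: es) (pos :: (!pos) :: ls) (p :: x :: y :: xs) =
      (cnt1 p x y • F1 + cnt2 p x y • F2 +
        gT (F1 - zph true - zph true + sg) (F2 + zph true + zph true + sg + cnt1 p x y • qq) es ls xs)
      + loc3 pos p x y := by
  simp only [gR, gT, loc3, cnt1, cnt2]
  have h1 : F1 - zph true + pos.toNat • sg - zph true + (!pos).toNat • sg
      = F1 - zph true - zph true + sg := by
    have h := sg_add pos
    generalize pos.toNat • sg = u at *
    generalize (!pos).toNat • sg = v at *
    rw [← h]; abel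
  have h2 : F2 + p.1.toNat • qq + zph true + (!pos).toNat • sg + x.1.toNat • qq + zph true
      + (!(!pos)).toNat • sg + y.1.toNat • qq
      = F2 + zph true + zph true + sg + (p.1.toNat + x.1.toNat + y.1.toNat) • qq := by
    have h := sg_add pos
    rw [Bool.not_not, add_smul, add_smul]
    generalize pos.toNat • sg = u at *
    generalize (!pos).toNat • sg = v at *
    rw [← h]; abel
  have h3 : F2 + p.1.toNat • qq + zph true + (!pos).toNat • sg + x.1.toNat • qq + zph true
      + (!(!pos)).toNat • sg
      = F2 + zph true + zph true + sg + (p.1.toNat + x.1.toNat) • qq := by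
    have h := sg_add pos
    rw [Bool.not_not, add_smul]
    generalize pos.toNat • sg = u at *
    generalize (!pos).toNat • sg = v at *
    rw [← h]; abel
  rw [h1, h2, h3]
  module

theorem Ph_crossR (ha : IsMono (1, 0) a) (ha' : IsMono (3, 0) a')
    (hb : IsMono (1, 1) b) (hb' : IsMono (3, 1) b') (pos : Bool) (l₁ l₂ m₁ m₂ : List Bool) (hl : l₁.length = m₁.length)
    (hl' : l₂.length = m₂.length) (F1 F2 φ : Q)
    (X : List St) (hX : X.length = (l₁ ++ true :: true :: l₂).length + 1) (G : List St → L)
    (hG : ∀ X', X'.length = X.length → N1 X' = N1 X →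
      Ph (φ + gR F1 F2 (l₁ ++ true :: true :: l₂) (m₁ ++ pos :: (!pos) :: m₂) X') (G X')) :
    Ph (φ + sg + gR F1 F2 (l₁ ++ true :: true :: l₂) (m₁ ++ pos :: (!pos) :: m₂) X)
      (crossR a a' b b' pos l₁.length G X) := by
  induction l₁ generalizing m₁ F1 F2 φ X G with
  | nil =>
    match m₁, hl, X, hX with
    | [], _, p :: x :: y :: xs, hX =>
      simp only [List.nil_append, List.length_nil, crossR] at hG ⊢
      rw [gR_cross]
      have h := Ph_XT a a' b b' ha ha' hb hb' pos p x y (φ + (cnt1 p x y • F1 + cnt2 p x y • F2 +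
        gT (F1 - zph true - zph true + sg) (F2 + zph true + zph true + sg + cnt1 p x y • qq)
          l₂ m₂ xs)) (fun p' x' y' => G (p' :: x' :: y' :: xs)) (by
          intro p' x' y' h1 h2
          have := hG (p' :: x' :: y' :: xs) (by simp) (by
            simp only [cnt1] at h1
            simp only [N1]
            omega)
          rw [gR_cross, h1, h2] at this
          rw [add_assoc]
          exact this)
      have e : φ + sg + (cnt1 p x y • F1 + cnt2 p x y • F2 +
        gT (F1 - zph true - zph true + sg) (F2 + zph true + zph true + sg + cnt1 p x y • qq)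
          l₂ m₂ xs + loc3 pos p x y) = φ + (cnt1 p x y • F1 + cnt2 p x y • F2 +
        gT (F1 - zph true - zph true + sg) (F2 + zph true + zph true + sg + cnt1 p x y • qq)
          l₂ m₂ xs) + (sg + loc3 pos p x y) := by abel
      rw [e]
      exact h
  | cons e l₁ ih =>
    match m₁, hl, X, hX with
    | l :: m₁, hl, z :: xs, hX =>
      simp only [List.cons_append, List.length_cons, crossR] at hG ⊢
      have hne : xs ≠ [] := by
        rintro rfl
        simp at hX
      rw [gR_cons _ _ _ _ _ _ _ _ hne]
      have h := ih m₁ (by simpa using hl) (F1 - zph e + l.toNat • sg)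
        (F2 + z.1.toNat • qq + zph e + (!l).toNat • sg) (φ + (z.1.toNat • F1 + z.2.toNat • F2)) xs
        (by simpa using hX) (fun X => G (z :: X)) (by
          intro X' h1 h2
          have := hG (z :: X') (by simp [h1]) (by simp [N1, h2])
          have hne' : X' ≠ [] := by
            rintro rfl
            simp at h1
            exact hne (List.length_eq_zero_iff.mp h1.symm)
          rw [gR_cons _ _ _ _ _ _ _ _ hne', ← add_assoc] at this
          exact this)
      have e2 : ∀ (u v : Q), φ + sg + (u + v) = φ + u + sg + v := by intro u v; abel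
      rw [e2]
      exact h

lemma gR_cup (F1 F2 : Q) (s c : Bool) (es ls : List Bool) (x l r : St) (xs : List St)
    (h1 : l.1.toNat + r.1.toNat = x.1.toNat) (h2 : l.2.toNat + r.2.toNat = x.2.toNat)
    (hes : xs.length = es.length) (hls : xs.length = ls.length) :
    gR F1 F2 (s :: (!s) :: es) (c :: (!c) :: ls) (l :: (true, true) :: r :: xs) =
      gR F1 F2 es ls (x :: xs) + F1 + F2 + sg + N1 (x :: xs) • qq
        + (l.1.toNat * r.2.toNat) • qq := by
  simp only [gR, gT, N1, Bool.toNat_true, one_smul]
  have e1 : F1 - zph s + c.toNat • sg - zph (!s) + (!c).toNat • sg = F1 + qq := by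
    have h3 : ∀ (s c : Bool), - zph s + c.toNat • sg - zph (!s) + (!c).toNat • sg = qq := by decide
    rw [← h3 s c]; abel
  have e2 : F2 + l.1.toNat • qq + zph s + (!c).toNat • sg + qq + zph (!s) + (!(!c)).toNat • sg
      = F2 + l.1.toNat • qq := by
    have h3 : ∀ (s c : Bool), zph s + (!c).toNat • sg + qq + zph (!s) + (!(!c)).toNat • sg = 0 := by
      decide
    have : F2 + l.1.toNat • qq + zph s + (!c).toNat • sg + qq + zph (!s) + (!(!c)).toNat • sg
      = F2 + l.1.toNat • qq + (zph s + (!c).toNat • sg + qq + zph (!s) + (!(!c)).toNat • sg) := by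
      abel
    rw [this, h3, add_zero]
  have e3 : F2 + l.1.toNat • qq + r.1.toNat • qq = F2 + x.1.toNat • qq := by
    rw [← h1]; module
  rw [e1, e2, e3, gT_shift _ _ _ _ _ hes.le hls.le, ← h2, ← h1]
  have e4 : (F1 - zph s + c.toNat • sg) + (F2 + l.1.toNat • qq + zph s + (!c).toNat • sg)
      = F1 + F2 + sg + l.1.toNat • qq := by
    have h := sg_add c
    generalize c.toNat • sg = u at *
    generalize (!c).toNat • sg = v at *
    rw [← h]; abel
  have e5 : l.1.toNat • F1 + l.2.toNat • F2 + (F1 - zph s + c.toNat • sg +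
      (F2 + l.1.toNat • qq + zph s + (!c).toNat • sg) + (r.1.toNat • (F1 + qq) +
      r.2.toNat • (F2 + l.1.toNat • qq) + (gT F1 (F2 + (l.1.toNat + r.1.toNat) • qq) es ls xs
        + N1 xs • qq)))
      = l.1.toNat • F1 + l.2.toNat • F2 + ((F1 + F2 + sg + l.1.toNat • qq) +
      (r.1.toNat • (F1 + qq) +
      r.2.toNat • (F2 + l.1.toNat • qq) + (gT F1 (F2 + (l.1.toNat + r.1.toNat) • qq) es ls xs
        + N1 xs • qq))) := by
    rw [e4]
  rw [e5]
  module

lemma two_sg : (2 : ℕ) • sg = 0 := by decide

theorem Ph_cupR (ha : IsMono (1, 0) a) (hb : IsMono (1, 1) b) (s c : Bool)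
    (l₁ l₂ m₁ m₂ : List Bool) (hl : l₁.length = m₁.length)
    (hl' : l₂.length = m₂.length) (F1 F2 φ : Q)
    (X : List St) (hX : X.length = (l₁ ++ l₂).length + 1) (G : List St → L)
    (hG : ∀ X', X'.length = X.length + 2 → N1 X' = N1 X + 1 →
      Ph (φ + gR F1 F2 (l₁ ++ s :: (!s) :: l₂) (m₁ ++ c :: (!c) :: m₂) X') (G X')) :
    Ph (φ + F1 + F2 + (l₁.length + 1) • sg + N1 X • qq + gR F1 F2 (l₁ ++ l₂) (m₁ ++ m₂) X)
      (cupR a b l₁.length G X) := by
  induction l₁ generalizing m₁ F1 F2 φ X G with
  | nil =>
    match m₁, hl, X, hX with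
    | [], _, x :: xs, hX =>
      simp only [List.nil_append, List.length_nil, cupR] at hG ⊢
      refine Ph_ST a b ha hb x _ _ ?_
      intro l r h1 h2
      have h3 : xs.length = l₂.length := by simpa using hX
      have := hG (l :: (true, true) :: r :: xs) (by simp) (by simp [N1]; omega)
      rw [gR_cup F1 F2 s c l₂ m₂ x l r xs h1 h2 h3 (h3.trans hl')] at this
      have e : φ + F1 + F2 + (0 + 1) • sg + N1 (x :: xs) • qq + gR F1 F2 l₂ m₂ (x :: xs)
          + (l.1.toNat * r.2.toNat) • qq
          = φ + (gR F1 F2 l₂ m₂ (x :: xs) + F1 + F2 + sg + N1 (x :: xs) • qq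
            + (l.1.toNat * r.2.toNat) • qq) := by
        rw [zero_add, one_smul]; abel
      rw [e]
      exact this
  | cons e l₁ ih =>
    match m₁, hl, X, hX with
    | l :: m₁, hl, z :: xs, hX =>
      simp only [List.cons_append, List.length_cons, cupR] at hG ⊢
      have hne : xs ≠ [] := by
        rintro rfl
        simp at hX
      rw [gR_cons _ _ _ _ _ _ _ _ hne]
      have h := ih m₁ (by simpa using hl) (F1 - zph e + l.toNat • sg)
        (F2 + z.1.toNat • qq + zph e + (!l).toNat • sg) (φ + (z.1.toNat • F1 + z.2.toNat • F2)) xs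
        (by simpa using hX) (fun X => G (z :: X)) (by
          intro X' h1 h2
          have := hG (z :: X') (by simp [h1]) (by simp only [N1, h2]; omega)
          have hne' : X' ≠ [] := by
            rintro rfl
            simp at h1
          rw [gR_cons _ _ _ _ _ _ _ _ hne', ← add_assoc] at this
          exact this)
      have e1 : ∀ (u v w t : Q), φ + u + (F1 - zph e + l.toNat • sg)
          + (F2 + z.1.toNat • qq + zph e + (!l).toNat • sg) + v + w + t
          = φ + F1 + F2 + (v + sg) + (z.1.toNat • qq + w) + (u + t) := by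
        intro u v w t
        have h := sg_add l
        generalize l.toNat • sg = u at *
        generalize (!l).toNat • sg = v at *
        rw [← h]; abel
      rw [e1] at h
      have e2 : (l₁.length + 1 + 1) • sg = (l₁.length + 1) • sg + sg := by
        rw [add_smul (l₁.length + 1) 1 sg, one_smul]
      have e3 : N1 (z :: xs) • qq = z.1.toNat • qq + N1 xs • qq := by
        simp only [N1, add_smul]
      rw [e2, e3]
      exact h

lemma gR_cap (F1 F2 : Q) (s c : Bool) (es ls : List Bool) (p y z : St) (xs : List St)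
    (h1 : z.1.toNat + 1 = p.1.toNat + y.1.toNat) (h2 : z.2.toNat + 1 = p.2.toNat + y.2.toNat)
    (hes : xs.length = es.length) (hls : xs.length = ls.length) :
    gR F1 F2 (s :: (!s) :: es) (c :: (!c) :: ls) (p :: (false, false) :: y :: xs) =
      gR F1 F2 es ls (z :: xs) + F1 + F2
        + (y.1.toNat + y.2.toNat * (1 + p.1.toNat) + N1 xs) • qq := by
  simp only [gR, gT, Bool.toNat_false, zero_smul, zero_add, add_zero]
  have e1 : F1 - zph s + c.toNat • sg - zph (!s) + (!c).toNat • sg = F1 + qq := by
    have h3 : ∀ (s c : Bool), - zph s + c.toNat • sg - zph (!s) + (!c).toNat • sg = qq := by decide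
    rw [← h3 s c]; abel
  have e2 : F2 + p.1.toNat • qq + zph s + (!c).toNat • sg + zph (!s) + (!(!c)).toNat • sg
      = F2 + p.1.toNat • qq + qq := by
    have h3 : ∀ (s c : Bool), zph s + (!c).toNat • sg + zph (!s) + (!(!c)).toNat • sg = qq := by
      decide
    have : F2 + p.1.toNat • qq + zph s + (!c).toNat • sg + zph (!s) + (!(!c)).toNat • sg
      = F2 + p.1.toNat • qq + (zph s + (!c).toNat • sg + zph (!s) + (!(!c)).toNat • sg) := by
      abel
    rw [this, h3]
  have e3 : F2 + p.1.toNat • qq + qq + y.1.toNat • qq = F2 + z.1.toNat • qq := by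
    have : F2 + p.1.toNat • qq + qq + y.1.toNat • qq
        = F2 + (p.1.toNat + y.1.toNat) • qq + qq := by module
    rw [this, ← h1]
    have : F2 + (z.1.toNat + 1) • qq + qq = F2 + z.1.toNat • qq + (2 : ℕ) • qq := by module
    rw [this, two_qq, add_zero]
  rw [e1, e2, e3, gT_shift _ _ _ _ _ hes.le hls.le]
  have e4 : p.1.toNat • F1 + y.1.toNat • F1 = z.1.toNat • F1 + F1 := by
    rw [← add_smul, ← h1, add_smul, one_smul]
  have e5 : p.2.toNat • F2 + y.2.toNat • F2 = z.2.toNat • F2 + F2 := by
    rw [← add_smul, ← h2, add_smul, one_smul]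
  have e6 : p.1.toNat • F1 + p.2.toNat • F2 + (y.1.toNat • (F1 + qq) +
      y.2.toNat • (F2 + p.1.toNat • qq + qq) + (gT F1 (F2 + z.1.toNat • qq) es ls xs + N1 xs • qq))
      = (p.1.toNat • F1 + y.1.toNat • F1) + (p.2.toNat • F2 + y.2.toNat • F2)
      + (y.1.toNat • qq + y.2.toNat • (p.1.toNat • qq + qq) +
        (gT F1 (F2 + z.1.toNat • qq) es ls xs + N1 xs • qq)) := by
    module
  rw [e6, e4, e5]
  module

theorem Ph_capR (ha' : IsMono (3, 0) a') (hb' : IsMono (3, 1) b') (s c : Bool)
    (l₁ l₂ m₁ m₂ : List Bool) (hl : l₁.length = m₁.length)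
    (hl' : l₂.length = m₂.length) (F1 F2 φ : Q)
    (X : List St) (hX : X.length = (l₁ ++ s :: (!s) :: l₂).length + 1) (G : List St → L)
    (hG : ∀ X', X'.length + 2 = X.length → N1 X' + 1 = N1 X →
      Ph (φ + gR F1 F2 (l₁ ++ l₂) (m₁ ++ m₂) X') (G X')) :
    Ph (φ - F1 - F2 + l₁.length • sg + (N1 X + 1) • qq
        + gR F1 F2 (l₁ ++ s :: (!s) :: l₂) (m₁ ++ c :: (!c) :: m₂) X)
      (capR a' b' l₁.length G X) := by
  induction l₁ generalizing m₁ F1 F2 φ X G with
  | nil =>
    match m₁, hl, X, hX with
    | [], _, p :: x :: y :: xs, hX =>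
      simp only [List.nil_append, List.length_nil, capR] at hG ⊢
      split_ifs with hx
      · subst hx
        have h3 : xs.length = l₂.length := by simpa using hX
        have h := Ph_MT a' b' ha' hb' p y (φ + (gR F1 F2 (s :: (!s) :: l₂) (c :: (!c) :: m₂)
            (p :: (false, false) :: y :: xs) - F1 - F2
            - (y.1.toNat + y.2.toNat * (1 + p.1.toNat) + N1 xs) • qq)) (fun z => G (z :: xs)) (by
          intro z h1 h2
          have := hG (z :: xs) (by simp) (by simp [N1]; omega)
          rw [gR_cap F1 F2 s c l₂ m₂ p y z xs h1 h2 h3 (h3.trans hl')]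
          have e : φ + (gR F1 F2 l₂ m₂ (z :: xs) + F1 + F2 +
              (y.1.toNat + y.2.toNat * (1 + p.1.toNat) + N1 xs) • qq - F1 - F2
              - (y.1.toNat + y.2.toNat * (1 + p.1.toNat) + N1 xs) • qq)
              = φ + gR F1 F2 l₂ m₂ (z :: xs) := by abel
          rw [e]
          exact this)
        have e : φ - F1 - F2 + 0 • sg + (N1 (p :: (false, false) :: y :: xs) + 1) • qq
            + gR F1 F2 (s :: (!s) :: l₂) (c :: (!c) :: m₂) (p :: (false, false) :: y :: xs)
            = (φ + (gR F1 F2 (s :: (!s) :: l₂) (c :: (!c) :: m₂)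
            (p :: (false, false) :: y :: xs) - F1 - F2
            - (y.1.toNat + y.2.toNat * (1 + p.1.toNat) + N1 xs) • qq))
            + (y.1.toNat + y.2.toNat * (1 + p.1.toNat) + (p.1.toNat + y.1.toNat + 1)) • qq
            + N1 xs • ((2 : ℕ) • qq) := by
          simp only [N1, Bool.toNat_false]
          module
        rw [e, two_qq, smul_zero, add_zero]
        exact h
      · exact Ph.zero _
  | cons e l₁ ih =>
    match m₁, hl, X, hX with
    | l :: m₁, hl, z :: xs, hX =>
      simp only [List.cons_append, List.length_cons, capR] at hG ⊢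
      have hne : xs ≠ [] := by
        rintro rfl
        simp at hX
      rw [gR_cons _ _ _ _ _ _ _ _ hne]
      have h := ih m₁ (by simpa using hl) (F1 - zph e + l.toNat • sg)
        (F2 + z.1.toNat • qq + zph e + (!l).toNat • sg) (φ + (z.1.toNat • F1 + z.2.toNat • F2)) xs
        (by simpa using hX) (fun X => G (z :: X)) (by
          intro X' h1 h2
          have := hG (z :: X') (by simp; omega) (by simp only [N1]; omega)
          have hne' : X' ≠ [] := by
            rintro rfl
            simp at h1 hX
            omega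
          rw [gR_cons _ _ _ _ _ _ _ _ hne', ← add_assoc] at this
          exact this)
      have e1 : ∀ (u v w t : Q), φ + u - (F1 - zph e + l.toNat • sg)
          - (F2 + z.1.toNat • qq + zph e + (!l).toNat • sg) + v + w + t
          = φ - F1 - F2 + (v + sg) + (z.1.toNat • qq + w) + (u + t)
            - (2 : ℕ) • sg - z.1.toNat • ((2 : ℕ) • qq) := by
        intro u v w t
        have h := sg_add l
        generalize l.toNat • sg = u at *
        generalize (!l).toNat • sg = v at *
        rw [← h]; module
      rw [e1, two_qq, two_sg, smul_zero, sub_zero, sub_zero] at h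
      have e2 : (l₁.length + 1) • sg = l₁.length • sg + sg := by
        rw [add_smul l₁.length 1 sg, one_smul]
      have e3 : (N1 (z :: xs) + 1) • qq = z.1.toNat • qq + (N1 xs + 1) • qq := by
        simp only [N1, add_smul, add_assoc]
      rw [e2, e3]
      exact h

end

end LGAlt
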