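import Pool.Agent.LGAlt.Defs

/-!
# The number of components modulo two
-/

namespace LGAlt

/-- `1` if `x`, `y` have the same orientation and the label of `y` is smaller -/
def rel (x y : Bool × ℕ) : ZMod 2 := if x.1 = y.1 ∧ y.2 < x.2 then 1 else 0

/-- number of inversions of `x` with the elements of `l` modulo 2 -/
def cr (x : Bool × ℕ) (l : List (Bool × ℕ)) : ZMod 2 := (l.map (rel x)).sum

/-- number of inversions between `l` and `m` -/
def cs (l m : List (Bool × ℕ)) : ZMod 2 := (l.map (fun x => cr x m)).sum

/-- number of inversions modulo two -/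
def inv : List (Bool × ℕ) → ZMod 2
  | [] => 0
  | x :: l => cr x l + inv l

lemma cr_append (x : Bool × ℕ) (l m : List (Bool × ℕ)) : cr x (l ++ m) = cr x l + cr x m := by
  simp [cr]

lemma cr_cons (x y : Bool × ℕ) (l : List (Bool × ℕ)) : cr x (y :: l) = rel x y + cr x l := by
  simp [cr]

lemma cs_cons_left (x : Bool × ℕ) (l m : List (Bool × ℕ)) : cs (x :: l) m = cr x m + cs l m := by
  simp [cs]

lemma cs_append_left (l l' m : List (Bool × ℕ)) : cs (l ++ l') m = cs l m + cs l' m := by
  simp [cs]

lemma cs_append_right (l m m' : List (Bool × ℕ)) : cs l (m ++ m') = cs l m + cs l m' := by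
  induction l with
  | nil => simp [cs]
  | cons x l ih => simp only [cs_cons_left, cr_append, ih]; ring

lemma cs_cons_right (x : Bool × ℕ) (l m : List (Bool × ℕ)) :
    cs l (x :: m) = (l.map (fun y => rel y x)).sum + cs l m := by
  induction l with
  | nil => simp [cs]
  | cons y l ih => simp only [cs_cons_left, cr_cons, ih, List.map_cons, List.sum_cons]; ring

lemma inv_append (l m : List (Bool × ℕ)) : inv (l ++ m) = inv l + inv m + cs l m := by
  induction l with
  | nil => simp [inv, cs]
  | cons x l ih =>
    simp only [List.cons_append, inv, ih, cr_append, cs_cons_left]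
    ring

lemma two_eq_zero' (x : ZMod 2) : x + x = 0 := by revert x; decide

/-- insertion of a pair with the same label -/
lemma inv_pair (l m : List (Bool × ℕ)) (s : Bool) (c : ℕ) :
    inv (l ++ (s, c) :: (!s, c) :: m) = inv (l ++ m) +
      ((l.countP (fun x => c < x.2) : ℕ) : ZMod 2) + ((m.countP (fun x => x.2 < c) : ℕ) : ZMod 2) := by
  have h1 : ∀ l : List (Bool × ℕ), (l.map (fun y => rel y (s, c))).sum +
      (l.map (fun y => rel y (!s, c))).sum = ((l.countP (fun x => c < x.2) : ℕ) : ZMod 2) := by
    intro l
    induction l with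
    | nil => simp
    | cons y l ih =>
      rw [List.map_cons, List.map_cons, List.sum_cons, List.sum_cons, List.countP_cons]
      push_cast
      rw [← ih]
      have : rel y (s, c) + rel y (!s, c) = (if decide (c < y.2) = true then (1 : ZMod 2) else 0) := by
        obtain ⟨o, e⟩ := y
        simp only [rel]
        by_cases h : c < e <;> cases o <;> cases s <;> simp [h]
      rw [← this]
      ring
  have h2 : ∀ m : List (Bool × ℕ), cr (s, c) m + cr (!s, c) m =
      ((m.countP (fun x => x.2 < c) : ℕ) : ZMod 2) := by
    intro m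
    induction m with
    | nil => simp [cr]
    | cons y m ih =>
      rw [cr_cons, cr_cons, List.countP_cons]
      push_cast
      rw [← ih]
      have : rel (s, c) y + rel (!s, c) y = (if decide (y.2 < c) = true then (1 : ZMod 2) else 0) := by
        obtain ⟨o, e⟩ := y
        simp only [rel]
        by_cases h : e < c <;> cases o <;> cases s <;> simp [h]
      rw [← this]
      ring
  rw [inv_append, inv_append]
  simp only [inv, cs_cons_right, cr_cons]
  have h3 : rel (s, c) (!s, c) = 0 := by simp [rel]
  rw [h3, ← h1, ← h2]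
  ring

lemma rel_swap {x y : Bool × ℕ} (h : x.1 = y.1) (h' : x.2 ≠ y.2) : rel x y + rel y x = 1 := by
  simp only [rel, h, true_and]
  rcases Nat.lt_or_gt_of_ne h' with h1 | h1
  · simp [h1, Nat.lt_asymm h1]
  · simp [h1, Nat.lt_asymm h1]

/-- exchange of two elements with the same orientation -/
lemma inv_swap (A B C : List (Bool × ℕ)) (x y : Bool × ℕ) (h : x.1 = y.1) (h' : x.2 ≠ y.2)
    (hx : x ∉ B) (hy : y ∉ B) :
    inv (A ++ x :: B ++ y :: C) = inv (A ++ y :: B ++ x :: C) + 1 := by
  have h1 : ∀ B : List (Bool × ℕ), x ∉ B → y ∉ B →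
      cr x B + (B.map (fun z => rel z y)).sum = cr y B + (B.map (fun z => rel z x)).sum := by
    intro B hx hy
    induction B with
    | nil => simp [cr]
    | cons z B ih =>
      rw [List.mem_cons, not_or] at hx hy
      rw [cr_cons, cr_cons, List.map_cons, List.map_cons, List.sum_cons, List.sum_cons]
      have ih' := ih hx.2 hy.2
      have : rel x z + rel z y = rel y z + rel z x := by
        by_cases hz : z.1 = x.1
        · have e1 := rel_swap (x := x) (y := z) hz.symm (fun e => hx.1 (Prod.ext hz.symm e))
          have e2 := rel_swap (x := y) (y := z) (h ▸ hz.symm) (fun e => hy.1 (Prod.ext (h ▸ hz.symm) e))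
          have e3 : rel x z = 1 - rel z x := by rw [← e1]; ring
          have e4 : rel y z = 1 - rel z y := by rw [← e2]; ring
          rw [e3, e4]
          have : ∀ u v : ZMod 2, 1 - u + v = 1 - v + u := by decide
          exact this _ _
        · have hz' : ¬ x.1 = z.1 := fun e => hz e.symm
          have hz2 : ¬ y.1 = z.1 := fun e => hz' (h.trans e)
          have hz3 : ¬ z.1 = y.1 := fun e => hz2 e.symm
          simp [rel, hz, hz', hz2, hz3]
      linear_combination this + ih'
  have h2 := h1 B hx hy
  have h3 := rel_swap h h'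
  simp only [inv_append, List.append_assoc, List.cons_append, inv, cs_cons_right, cs_append_right,
    cr_append, cr_cons]
  have h4 : rel x y = rel y x + 1 := by
    have : ∀ u v : ZMod 2, u + v = 1 → u = v + 1 := by decide
    exact this _ _ h3
  rw [h4]
  linear_combination h2


/-- the conditions satisfied by the labels: every label occurs exactly once on an upward and once on a
downward strand, except for the label `0` of the first strand, which occurs only on an upward one -/
structure Good (l : List (Bool × ℕ)) : Prop where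
  nodup : l.Nodup
  up : ∀ c, (true, c) ∈ l ↔ ((false, c) ∈ l ∨ c = 0)
  zero : (false, 0) ∉ l

lemma Good.perm {l m : List (Bool × ℕ)} (h : Good l) (p : l.Perm m) : Good m :=
  ⟨p.nodup_iff.mp h.nodup, fun c => by rw [← p.mem_iff, ← p.mem_iff]; exact h.up c,
    fun hh => h.zero (p.mem_iff.mpr hh)⟩

/-- the number of labels smaller than `c` is odd -/
lemma Good.odd {l : List (Bool × ℕ)} (h : Good l) (c : ℕ) :
    ((l.countP (fun x => x.2 < c + 1) : ℕ) : ZMod 2) = 1 := by
  have h0 : ∀ c, l.countP (fun x => x.2 = c) = l.count (true, c) + l.count (false, c) := by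
    intro c
    have : ∀ l : List (Bool × ℕ), l.countP (fun x => x.2 = c) = l.count (true, c) + l.count (false, c) := by
      intro l
      induction l with
      | nil => simp
      | cons y l ih =>
        rw [List.countP_cons, List.count_cons, List.count_cons, ih]
        obtain ⟨o, e⟩ := y
        by_cases he : e = c <;> cases o <;> simp [he] <;> omega
    exact this l
  have h1 : ∀ c, ((l.countP (fun x => x.2 = c) : ℕ) : ZMod 2) = if c = 0 then 1 else 0 := by
    intro c
    rw [h0]
    by_cases hc : c = 0
    · subst hc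
      rw [List.count_eq_one_of_mem h.nodup ((h.up 0).mpr (Or.inr rfl)),
        List.count_eq_zero_of_not_mem h.zero]
      simp
    · by_cases hm : (false, c) ∈ l
      · rw [List.count_eq_one_of_mem h.nodup ((h.up c).mpr (Or.inl hm)),
          List.count_eq_one_of_mem h.nodup hm]
        simp only [hc, if_false]
        decide
      · have hm' : (true, c) ∉ l := fun hh => by
          rcases (h.up c).mp hh with h3 | h3
          · exact hm h3
          · exact hc h3
        rw [List.count_eq_zero_of_not_mem hm, List.count_eq_zero_of_not_mem hm']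
        simp [hc]
  have h2 : ∀ c, l.countP (fun x => x.2 < c + 1) =
      l.countP (fun x => x.2 < c) + l.countP (fun x => x.2 = c) := by
    intro c
    have : ∀ l : List (Bool × ℕ), l.countP (fun x => x.2 < c + 1) =
      l.countP (fun x => x.2 < c) + l.countP (fun x => x.2 = c) := by
      intro l
      induction l with
      | nil => simp
      | cons y l ih =>
        rw [List.countP_cons, List.countP_cons, List.countP_cons, ih]
        rcases lt_trichotomy y.2 c with h | h | h
        · simp [h, h.ne, Nat.lt_succ_of_lt h]; omega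
        · simp [h]; omega
        · have h5 : ¬ y.2 < c + 1 := by omega
          have h6 : ¬ y.2 < c := by omega
          have h7 : ¬ y.2 = c := by omega
          simp [h5, h6, h7]
    exact this l
  induction c with
  | zero =>
    rw [h2 0]
    push_cast
    rw [h1 0]
    simp
  | succ c ih =>
    rw [h2 (c + 1)]
    push_cast
    rw [ih, h1 (c + 1)]
    simp

lemma countP_gt {l : List (Bool × ℕ)} {c : ℕ} (h : ∀ x ∈ l, x.2 ≠ c) :
    ((l.countP (fun x => c < x.2) : ℕ) : ZMod 2)
      = (l.length : ZMod 2) + ((l.countP (fun x => x.2 < c) : ℕ) : ZMod 2) := by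
  induction l with
  | nil => simp
  | cons y l ih =>
    rw [List.countP_cons, List.countP_cons, List.length_cons]
    push_cast
    rw [ih (fun x hx => h x (List.mem_cons_of_mem _ hx))]
    have hy := h y (List.mem_cons_self)
    rcases Nat.lt_or_gt_of_ne hy with h1 | h1
    · have h2 : ¬ c < y.2 := by omega
      simp only [h1, h2, decide_true, decide_false, if_true, Bool.false_eq_true, if_false, add_zero]
      have : ∀ u v : ZMod 2, u + v = u + 1 + (v + 1) := by decide
      exact this _ _
    · have h2 : ¬ y.2 < c := by omega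
      simp only [h1, h2, decide_true, decide_false, if_true, Bool.false_eq_true, if_false, add_zero]
      ring

/-- closing a component -/
lemma cap_same_inv {l₁ l₂ : List (Bool × ℕ)} {s : Bool} {c : ℕ}
    (h : Good (l₁ ++ (s, c) :: (!s, c) :: l₂)) :
    Good (l₁ ++ l₂) ∧ inv (l₁ ++ (s, c) :: (!s, c) :: l₂) = inv (l₁ ++ l₂) + l₁.length + 1 := by
  have hp : (l₁ ++ (s, c) :: (!s, c) :: l₂).Perm ((s, c) :: (!s, c) :: (l₁ ++ l₂)) := by
    refine List.perm_middle.trans ?_
    refine List.Perm.cons _ ?_
    exact List.perm_middle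
  have hg := h.perm hp
  have hn := hg.nodup
  rw [List.nodup_cons, List.nodup_cons, List.mem_cons, not_or] at hn
  have hc : c ≠ 0 := by
    rintro rfl
    apply hg.zero
    cases s <;> simp
  have hne : ∀ x ∈ l₁ ++ l₂, x.2 ≠ c := by
    rintro ⟨o, e⟩ hx rfl
    cases o <;> cases s
    · exact hn.1.2 hx
    · exact hn.2.1 hx
    · exact hn.2.1 hx
    · exact hn.1.2 hx
  have hmem : ∀ (o : Bool) (e : ℕ), (o, e) ∈ (s, c) :: (!s, c) :: (l₁ ++ l₂) ↔
      (e = c ∨ (o, e) ∈ l₁ ++ l₂) := by
    intro o e
    simp only [List.mem_cons, Prod.mk.injEq]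
    cases o <;> cases s <;> simp
  have hg' : Good (l₁ ++ l₂) := by
    refine ⟨hn.2.2, fun e => ?_, fun hh => hg.zero (by simp only [List.mem_cons]; tauto)⟩
    have h1 := hg.up e
    rw [hmem, hmem] at h1
    by_cases he : e = c
    · subst he
      have h3 : ∀ o, (o, e) ∉ l₁ ++ l₂ := fun o ho => hne _ ho rfl
      constructor
      · intro hh; exact absurd hh (h3 _)
      · rintro (hh | hh)
        · exact absurd hh (h3 _)
        · exact absurd hh hc
    · simpa [he] using h1
  refine ⟨hg', ?_⟩
  rw [inv_pair, countP_gt (fun x hx => hne x (List.mem_append_left _ hx))]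
  have h2 := hg'.odd (c - 1)
  have h3 : c - 1 + 1 = c := by omega
  rw [h3, List.countP_append] at h2
  push_cast at h2
  linear_combination h2

/-- a new arc -/
lemma cup_inv {l₁ l₂ : List (Bool × ℕ)} {s : Bool} {N : ℕ} (h : Good (l₁ ++ l₂)) (hN : 0 < N)
    (hl : ∀ x ∈ l₁ ++ l₂, x.2 < N) :
    Good (l₁ ++ (s, N) :: (!s, N) :: l₂) ∧
      inv (l₁ ++ (s, N) :: (!s, N) :: l₂) = inv (l₁ ++ l₂) + l₂.length := by
  have hp : ((s, N) :: (!s, N) :: (l₁ ++ l₂)).Perm (l₁ ++ (s, N) :: (!s, N) :: l₂) := by
    refine List.Perm.trans ?_ List.perm_middle.symm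
    refine List.Perm.cons _ ?_
    exact List.perm_middle.symm
  constructor
  · refine Good.perm ?_ hp
    have hm : ∀ o, (o, N) ∉ l₁ ++ l₂ := fun o ho => absurd (hl _ ho) (lt_irrefl _)
    refine ⟨?_, fun e => ?_, fun hh => ?_⟩
    · rw [List.nodup_cons, List.nodup_cons, List.mem_cons, not_or]
      refine ⟨⟨by simp, hm _⟩, hm _, h.nodup⟩
    · have hmem : ∀ (o : Bool) (e : ℕ), (o, e) ∈ (s, N) :: (!s, N) :: (l₁ ++ l₂) ↔
          (e = N ∨ (o, e) ∈ l₁ ++ l₂) := by
        intro o e
        simp only [List.mem_cons, Prod.mk.injEq]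
        cases o <;> cases s <;> simp
      rw [hmem, hmem, h.up e]
      tauto
    · rw [List.mem_cons, List.mem_cons, Prod.mk.injEq, Prod.mk.injEq] at hh
      rcases hh with hh | hh | hh
      · omega
      · omega
      · exact h.zero hh
  · rw [inv_pair]
    have h1 : l₁.countP (fun x => N < x.2) = 0 := by
      rw [List.countP_eq_zero]
      intro x hx
      have := hl x (List.mem_append_left _ hx)
      simp; omega
    have h2 : l₂.countP (fun x => x.2 < N) = l₂.length := by
      rw [List.countP_eq_length]
      intro x hx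
      have := hl x (List.mem_append_right _ hx)
      simpa using this
    rw [h1, h2]
    simp

lemma relabel_eq {c d : ℕ} {x : Bool × ℕ} (h : x.2 ≠ max c d) : relabel c d x = x := by
  obtain ⟨o, e⟩ := x
  simp only [relabel]
  split_ifs with h1
  · simp only [Prod.mk.injEq, true_and]
    simp only at h h1
    omega
  · rfl

lemma map_relabel {c d : ℕ} {l : List (Bool × ℕ)} (h : ∀ x ∈ l, x.2 ≠ max c d) :
    l.map (relabel c d) = l := by
  conv_rhs => rw [← List.map_id l]
  exact List.map_congr_left (fun x hx => by rw [relabel_eq (h x hx)]; rfl)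

lemma relabel_max {c d : ℕ} (o : Bool) : relabel c d (o, max c d) = (o, min c d) := by
  simp only [relabel, Prod.mk.injEq, true_and]
  rcases le_total c d with h | h <;> simp [h]

lemma no_label {l R : List (Bool × ℕ)} {M : ℕ} {s : Bool} (h : l.Nodup)
    (hp : l.Perm ((s, M) :: (!s, M) :: R)) : ∀ x ∈ R, x.2 ≠ M := by
  have hn := hp.nodup_iff.mp h
  rw [List.nodup_cons, List.nodup_cons, List.mem_cons, not_or] at hn
  rintro ⟨o, e⟩ hx rfl
  cases o <;> cases s
  · exact hn.1.2 hx
  · exact hn.2.1 hx
  · exact hn.2.1 hx
  · exact hn.1.2 hx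

lemma swap_good {A B C : List (Bool × ℕ)} {x y : Bool × ℕ} (h : Good (A ++ x :: B ++ y :: C))
    (h1 : x.1 = y.1) (h2 : x.2 ≠ y.2) :
    Good (A ++ y :: B ++ x :: C) ∧ inv (A ++ x :: B ++ y :: C) = inv (A ++ y :: B ++ x :: C) + 1 := by
  have hp : (A ++ x :: B ++ y :: C).Perm (A ++ y :: B ++ x :: C) := by
    rw [List.perm_iff_count]
    intro z
    simp only [List.count_append, List.count_cons]
    omega
  have hn := h.nodup
  have e : A ++ x :: B ++ y :: C = A ++ (x :: (B ++ (y :: C))) := by simp
  rw [e, List.nodup_append, List.nodup_cons, List.nodup_append] at hn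
  refine ⟨h.perm hp, inv_swap A B C x y h1 h2 ?_ ?_⟩
  · intro hx
    exact hn.2.1.1 (List.mem_append_left _ hx)
  · intro hy
    exact hn.2.1.2.2.2 y hy y (List.mem_cons_self) rfl

/-- joining two different arcs -/
lemma cap_ne_inv {l₁ l₂ : List (Bool × ℕ)} {s : Bool} {c d : ℕ} (hcd : c ≠ d)
    (h : Good (l₁ ++ (s, c) :: (!s, d) :: l₂)) :
    Good ((l₁ ++ l₂).map (relabel c d)) ∧
      inv (l₁ ++ (s, c) :: (!s, d) :: l₂) = inv ((l₁ ++ l₂).map (relabel c d)) + l₁.length := by
  have hnd := h.nodup
  have hother : ∀ (o : Bool) (e : ℕ), e ≠ 0 → (o, e) ∈ l₁ ++ (s, c) :: (!s, d) :: l₂ →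
      (!o, e) ∈ l₁ ++ (s, c) :: (!s, d) :: l₂ := by
    intro o e he ho
    cases o
    · exact (h.up e).mpr (Or.inl ho)
    · exact ((h.up e).mp ho).resolve_right he
  have key : ∀ u v : ZMod 2, u + v + 1 + 1 = u + v := by decide
  rcases Nat.lt_or_gt_of_ne hcd with hlt | hlt
  · -- `c < d`
    have hM : max c d = d := max_eq_right hlt.le
    have hm : min c d = c := min_eq_left hlt.le
    have hrel := relabel_max (c := c) (d := d) s
    rw [hM, hm] at hrel
    have h1 : (s, d) ∈ l₁ ++ (s, c) :: (!s, d) :: l₂ := by
      have := hother (!s) d (by omega) (by simp)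
      rwa [Bool.not_not] at this
    have h2 : (s, d) ∈ l₁ ∨ (s, d) ∈ l₂ := by
      simp only [List.mem_append, List.mem_cons, Prod.mk.injEq] at h1
      rcases h1 with h1 | h1 | h1 | h1
      · exact Or.inl h1
      · exact absurd h1.2.symm hcd
      · cases s <;> simp at h1
      · exact Or.inr h1
    rcases h2 with h2 | h2
    · obtain ⟨A, B, rfl⟩ := List.append_of_mem h2
      have hno := no_label (s := s) (M := d) (R := (s, c) :: (A ++ B ++ l₂)) hnd (by
        rw [List.perm_iff_count]
        intro z
        simp only [List.count_append, List.count_cons]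
        omega)
      have hsw := swap_good (A := A) (B := B) (C := (!s, d) :: l₂) (x := (s, d)) (y := (s, c)) h rfl
        hcd.symm
      have hs := cap_same_inv (l₁ := A ++ (s, c) :: B) (l₂ := l₂) (s := s) (c := d) hsw.1
      have hmap : ((A ++ (s, d) :: B) ++ l₂).map (relabel c d) = (A ++ (s, c) :: B) ++ l₂ := by
        rw [List.map_append, List.map_append, List.map_cons, hrel, map_relabel, map_relabel,
          map_relabel] <;> intro x hx <;> rw [hM] <;> apply hno <;> simp [hx]
      rw [hmap]
      refine ⟨hs.1, ?_⟩
      rw [hsw.2, hs.2]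
      simp only [List.length_append, List.length_cons]
      exact key _ _
    · obtain ⟨A, B, rfl⟩ := List.append_of_mem h2
      have hno := no_label (s := s) (M := d) (R := (s, c) :: (l₁ ++ A ++ B)) hnd (by
        rw [List.perm_iff_count]
        intro z
        simp only [List.count_append, List.count_cons]
        omega)
      have hsw := swap_good (A := l₁) (B := (!s, d) :: A) (C := B) (x := (s, c)) (y := (s, d))
        (by simpa using h) rfl hcd
      have e1 : l₁ ++ (s, c) :: (!s, d) :: A ++ (s, d) :: B
          = l₁ ++ (s, c) :: (!s, d) :: (A ++ (s, d) :: B) := by simp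
      have e2 : l₁ ++ (s, d) :: (!s, d) :: A ++ (s, c) :: B
          = l₁ ++ (s, d) :: (!s, d) :: (A ++ (s, c) :: B) := by simp
      rw [e1, e2] at hsw
      have hs := cap_same_inv (l₁ := l₁) (l₂ := A ++ (s, c) :: B) (s := s) (c := d) hsw.1
      have hmap : (l₁ ++ (A ++ (s, d) :: B)).map (relabel c d) = l₁ ++ (A ++ (s, c) :: B) := by
        rw [List.map_append, List.map_append, List.map_cons, hrel, map_relabel, map_relabel,
          map_relabel] <;> intro x hx <;> rw [hM] <;> apply hno <;> simp [hx]
      rw [hmap]
      refine ⟨hs.1, ?_⟩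
      rw [hsw.2, hs.2]
      exact key _ _
  · -- `d < c`
    have hM : max c d = c := max_eq_left hlt.le
    have hm : min c d = d := min_eq_right hlt.le
    have hrel := relabel_max (c := c) (d := d) (!s)
    rw [hM, hm] at hrel
    have h1 : (!s, c) ∈ l₁ ++ (s, c) :: (!s, d) :: l₂ := hother s c (by omega) (by simp)
    have h2 : (!s, c) ∈ l₁ ∨ (!s, c) ∈ l₂ := by
      simp only [List.mem_append, List.mem_cons, Prod.mk.injEq] at h1
      rcases h1 with h1 | h1 | h1 | h1
      · exact Or.inl h1
      · cases s <;> simp at h1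
      · exact absurd h1.2 hcd
      · exact Or.inr h1
    rcases h2 with h2 | h2
    · obtain ⟨A, B, rfl⟩ := List.append_of_mem h2
      have hno := no_label (s := s) (M := c) (R := (!s, d) :: (A ++ B ++ l₂)) hnd (by
        rw [List.perm_iff_count]
        intro z
        simp only [List.count_append, List.count_cons]
        omega)
      have hsw := swap_good (A := A) (B := B ++ [(s, c)]) (C := l₂) (x := (!s, c)) (y := (!s, d))
        (by simpa using h) rfl hcd
      have e1 : A ++ (!s, c) :: (B ++ [(s, c)]) ++ (!s, d) :: l₂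
          = A ++ (!s, c) :: B ++ (s, c) :: (!s, d) :: l₂ := by simp
      have e2 : A ++ (!s, d) :: (B ++ [(s, c)]) ++ (!s, c) :: l₂
          = A ++ (!s, d) :: B ++ (s, c) :: (!s, c) :: l₂ := by simp
      rw [e1, e2] at hsw
      have hs := cap_same_inv (l₁ := A ++ (!s, d) :: B) (l₂ := l₂) (s := s) (c := c) hsw.1
      have hmap : ((A ++ (!s, c) :: B) ++ l₂).map (relabel c d) = (A ++ (!s, d) :: B) ++ l₂ := by
        rw [List.map_append, List.map_append, List.map_cons, hrel, map_relabel, map_relabel,
          map_relabel] <;> intro x hx <;> rw [hM] <;> apply hno <;> simp [hx]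
      rw [hmap]
      refine ⟨hs.1, ?_⟩
      rw [hsw.2, hs.2]
      simp only [List.length_append, List.length_cons]
      exact key _ _
    · obtain ⟨A, B, rfl⟩ := List.append_of_mem h2
      have hno := no_label (s := s) (M := c) (R := (!s, d) :: (l₁ ++ A ++ B)) hnd (by
        rw [List.perm_iff_count]
        intro z
        simp only [List.count_append, List.count_cons]
        omega)
      have hsw := swap_good (A := l₁ ++ [(s, c)]) (B := A) (C := B) (x := (!s, d)) (y := (!s, c))
        (by simpa using h) rfl hcd.symm
      have e1 : l₁ ++ [(s, c)] ++ (!s, d) :: A ++ (!s, c) :: B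
          = l₁ ++ (s, c) :: (!s, d) :: (A ++ (!s, c) :: B) := by simp
      have e2 : l₁ ++ [(s, c)] ++ (!s, c) :: A ++ (!s, d) :: B
          = l₁ ++ (s, c) :: (!s, c) :: (A ++ (!s, d) :: B) := by simp
      rw [e1, e2] at hsw
      have hs := cap_same_inv (l₁ := l₁) (l₂ := A ++ (!s, d) :: B) (s := s) (c := c) hsw.1
      have hmap : (l₁ ++ (A ++ (!s, c) :: B)).map (relabel c d) = l₁ ++ (A ++ (!s, d) :: B) := by
        rw [List.map_append, List.map_append, List.map_cons, hrel, map_relabel, map_relabel,
          map_relabel] <;> intro x hx <;> rw [hM] <;> apply hno <;> simp [hx]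
      rw [hmap]
      refine ⟨hs.1, ?_⟩
      rw [hsw.2, hs.2]
      exact key _ _

/-- the position dependent sign of a piece -/
def pieceSign : Piece → ℕ
  | .cross _ _ => 1
  | .cup k _ => k + 1
  | .cap k _ => k

/-- the conditions satisfied by the states -/
structure GoodState (x : State) : Prop where
  good : Good x.strands
  lt : ∀ y ∈ x.strands, y.2 < x.next
  pos : 0 < x.next
  odd : Odd x.strands.length

lemma min_lt_next {x : State} (h : GoodState x) {c : ℕ} {o : Bool} (hc : (o, c) ∈ x.strands)
    (d : ℕ) : min c d < x.next := lt_of_le_of_lt (min_le_left _ _) (h.lt _ hc)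

/-- the number of components modulo two, step by step -/
theorem step_sign {p : Piece} {x y : State} (hs : Step p x y) (hx : GoodState x) :
    GoodState y ∧ inv x.strands + (x.closed : ZMod 2) + (pieceSign p : ZMod 2)
      = inv y.strands + (y.closed : ZMod 2) := by
  cases hs with
  | cross l₁ l₂ c d n m pos =>
    have hcd : c ≠ d := by
      rintro rfl
      have := hx.good.nodup
      simp [List.nodup_append] at this
    have hsw := swap_good (A := l₁) (B := []) (C := l₂) (x := (true, c)) (y := (true, d))
        (by simpa using hx.good) rfl hcd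
    have e1 : ∀ c d, l₁ ++ (true, c) :: [] ++ (true, d) :: l₂
        = l₁ ++ (true, c) :: (true, d) :: l₂ := by intro c d; simp
    rw [e1, e1] at hsw
    refine ⟨⟨hsw.1, ?_, hx.pos, ?_⟩, ?_⟩
    · intro y hy
      apply hx.lt
      simp only [List.mem_append, List.mem_cons] at hy ⊢
      tauto
    · have := hx.odd
      simpa using this
    · simp only [pieceSign]
      rw [hsw.2]
      push_cast
      have : ∀ u v : ZMod 2, u + 1 + v + 1 = u + v := by decide
      exact this _ _
  | cup l₁ l₂ s n m =>
    have h := cup_inv (s := s) hx.good hx.pos hx.lt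
    refine ⟨⟨h.1, ?_, Nat.succ_pos _, ?_⟩, ?_⟩
    · intro y hy
      simp only [List.mem_append, List.mem_cons] at hy
      have hlt := hx.lt
      simp only [List.mem_append] at hlt
      rcases hy with hy | hy | hy | hy
      · exact Nat.lt_succ_of_lt (hlt y (Or.inl hy))
      · rw [hy]; exact Nat.lt_succ_self _
      · rw [hy]; exact Nat.lt_succ_self _
      · exact Nat.lt_succ_of_lt (hlt y (Or.inr hy))
    · have := hx.odd
      simp only [List.length_append, List.length_cons] at this ⊢
      rw [Nat.odd_iff] at this ⊢
      omega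
    · simp only [pieceSign]
      rw [h.2]
      have h1 := hx.odd
      simp only [List.length_append] at h1
      have h2 : ((l₁.length + l₂.length : ℕ) : ZMod 2) = 1 := by
        rw [ZMod.natCast_eq_one_iff_odd] 
        exact h1
      push_cast at h2 ⊢
      have h3 : ∀ u v a b : ZMod 2, a + b = 1 → u + v + (a + 1) = u + b + v := by decide
      exact h3 _ _ _ _ h2
  | cap_same l₁ l₂ s c n m =>
    have h := cap_same_inv hx.good
    refine ⟨⟨h.1, ?_, hx.pos, ?_⟩, ?_⟩
    · intro y hy
      apply hx.lt
      simp only [List.mem_append, List.mem_cons] at hy ⊢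
      tauto
    · have := hx.odd
      simp only [List.length_append, List.length_cons] at this ⊢
      rw [Nat.odd_iff] at this ⊢
      omega
    · simp only [pieceSign]
      rw [h.2]
      push_cast
      have h3 : ∀ u v a : ZMod 2, u + a + 1 + v + a = u + (v + 1) := by decide
      exact h3 _ _ _
  | cap_ne l₁ l₂ s c d n m hcd =>
    have h := cap_ne_inv hcd hx.good
    refine ⟨⟨h.1, ?_, hx.pos, ?_⟩, ?_⟩
    · intro y hy
      simp only [List.mem_map] at hy
      obtain ⟨z, hz, rfl⟩ := hy
      simp only [relabel]
      split_ifs with h1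
      · exact min_lt_next hx (c := c) (o := s) (by simp) d
      · apply hx.lt
        simp only [List.mem_append, List.mem_cons] at hz ⊢
        tauto
    · have := hx.odd
      simp only [List.length_append, List.length_cons, List.length_map] at this ⊢
      rw [Nat.odd_iff] at this ⊢
      omega
    · simp only [pieceSign]
      rw [h.2]
      have h3 : ∀ u v a : ZMod 2, u + a + v + a = u + v := by decide
      exact h3 _ _ _

end LGAlt
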