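import Pool.Agent.LGAlt.Word
import Pool.Agent.LGAlt.Layer
import Pool.Agent.LGAlt.Sign

/-!
# The sign pattern of the Links–Gould invariants of alternating links
-/

namespace LGAlt

/-- the phase of `(-1)^u` -/
def J (u : ZMod 2) : Q := if u = 0 then 0 else sg

lemma J_add (u v : ZMod 2) : J (u + v) = J u + J v := by revert u v; decide

lemma J_nat (n : ℕ) : J (n : ZMod 2) = n • sg := by
  induction n with
  | zero => simp [J]
  | succ n ih =>
    push_cast
    rw [J_add, ih, add_smul, one_smul]
    rfl

lemma Ph.one : Ph 0 (1 : L) := by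
  intro p q
  have h : (1 : L).coeff (p, q) = if (p, q) = ((0 : ℤ), (0 : ℤ)) then 1 else 0 := by
    have h0 : (1 : L) = AddMonoidAlgebra.single ((0 : ℤ), (0 : ℤ)) 1 := rfl
    rw [h0, AddMonoidAlgebra.coeff_single, Finsupp.single_apply]
    simp only [eq_comm]
  rw [h]
  split_ifs with h1
  · simp only [Prod.mk.injEq] at h1
    obtain ⟨rfl, rfl⟩ := h1
    refine ⟨fun _ => by simp; rfl, fun h2 => by omega⟩
  · refine ⟨fun h2 => by omega, fun h2 => by omega⟩

lemma qq_two_mul (n : ℕ) : (2 * n) • qq = 0 := by
  rw [mul_comm, mul_smul, two_qq, smul_zero]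

lemma AltStep.cross_inv {k : ℕ} {pos : Bool} {ls ls' : List Bool}
    (h : AltStep (.cross k pos) ls ls') :
    ∃ m₁ m₂ : List Bool, m₁.length = k ∧ ls = m₁ ++ pos :: (!pos) :: m₂ ∧ ls' = ls := by
  generalize hp : Piece.cross k pos = p at h
  cases h with
  | cross m₁ m₂ pos' =>
    cases hp
    exact ⟨m₁, m₂, rfl, rfl, rfl⟩
  | cup => cases hp
  | cap => cases hp

lemma AltStep.cup_inv {k : ℕ} {s : Bool} {ls ls' : List Bool} (h : AltStep (.cup k s) ls ls') :
    ∃ (m₁ m₂ : List Bool) (c : Bool), m₁.length = k ∧ ls = m₁ ++ m₂ ∧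
      ls' = m₁ ++ c :: (!c) :: m₂ := by
  generalize hp : Piece.cup k s = p at h
  cases h with
  | cross => cases hp
  | cup m₁ m₂ s' c =>
    cases hp
    exact ⟨m₁, m₂, c, rfl, rfl, rfl⟩
  | cap => cases hp

lemma AltStep.cap_inv {k : ℕ} {s : Bool} {ls ls' : List Bool} (h : AltStep (.cap k s) ls ls') :
    ∃ (m₁ m₂ : List Bool) (c : Bool), m₁.length = k ∧ ls = m₁ ++ c :: (!c) :: m₂ ∧
      ls' = m₁ ++ m₂ := by
  generalize hp : Piece.cap k s = p at h
  cases h with
  | cross => cases hp
  | cup => cases hp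
  | cap m₁ m₂ s' c =>
    cases hp
    exact ⟨m₁, m₂, c, rfl, rfl, rfl⟩

lemma choose_two_succ (n : ℕ) : (n + 1).choose 2 = n.choose 2 + n := by
  rw [Nat.choose_succ_succ' n 1, Nat.choose_one_right, add_comm]

/-- the main induction -/
theorem Ph_regV {w : List Piece} {x fin : State} (hw : Path w x fin) (hx : GoodState x)
    {c : ℕ} (hfin : fin.strands = [(true, c)]) {ls lfin : List Bool} (hl : AltPath w ls lfin)
    (hlen : ls.length = x.strands.length) (n : ℕ) (hn : x.strands.length = 2 * n + 1)
    (X : List St) (hX : X.length = x.strands.length + 1) (hN : N1 X = n) :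
    Ph (J (inv x.strands + x.closed + fin.closed) + n.choose 2 • qq +
        gR 0 0 (x.strands.map Prod.fst) ls X)
      (regV (mon 1 0) (mon (-1) 0) (mon 0 1) (mon 0 (-1)) w X) := by
  induction hw generalizing ls n X with
  | nil x =>
    have hn0 : n = 0 := by rw [hfin] at hn; simp at hn; omega
    subst hn0
    simp only [regV]
    split_ifs with h
    · subst h
      have e : J (inv x.strands + x.closed + x.closed) + Nat.choose 0 2 • qq +
        gR 0 0 (x.strands.map Prod.fst) ls [(false, false), (false, false)] = 0 := by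
        have e1 : inv x.strands = 0 := by rw [hfin]; simp [inv, cr]
        have e2 : ∀ u : ZMod 2, J (0 + u + u) = 0 := by decide
        rw [e1, e2, hfin]
        match ls with
        | [] => simp [gR, gT]
        | l :: ls => cases ls <;> simp [gR, gT]
      rw [e]
      exact Ph.one
    · exact Ph.zero _
  | cons p w x y z hs hw ih =>
    obtain ⟨hy, hsign⟩ := step_sign hs hx
    have hos := hs.oStep
    cases hl with
    | cons _ _ _ ls' _ hls hl' =>
    generalize hes : x.strands.map Prod.fst = es at hos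
    generalize hes' : y.strands.map Prod.fst = es' at hos
    have hlx : x.strands.length = es.length := by rw [← hes]; simp
    have hly : y.strands.length = es'.length := by rw [← hes']; simp
    have hJ : J (inv x.strands + x.closed + z.closed)
        = J (inv y.strands + y.closed + z.closed) + pieceSign p • sg := by
      rw [← hsign, ← J_nat, ← J_add]
      congr 1
      have : ∀ u v w t : ZMod 2, u + v + w = u + v + t + w + t := by decide
      exact this _ _ _ _
    cases hos with
    | cross l₁ l₂ pos =>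
      obtain ⟨m₁, m₂, hm, rfl, rfl⟩ := hls.cross_inv
      have hm2 : l₂.length = m₂.length := by
        simp only [List.length_append, List.length_cons] at hlen hlx
        omega
      have h := Ph_crossR (mon 1 0) (mon (-1) 0) (mon 0 1) (mon 0 (-1)) isMono_a isMono_a' isMono_b
        isMono_b' pos l₁ l₂ m₁ m₂ hm.symm hm2 0 0
        (J (inv y.strands + y.closed + z.closed) + n.choose 2 • qq) X (by rw [hX, hlx])
        (regV (mon 1 0) (mon (-1) 0) (mon 0 1) (mon 0 (-1)) w) (by
          intro X' h1 h2
          have := ih hy hfin hl' (by rw [hlen, hly, hlx]) n (by rw [hly, ← hlx, hn]) X'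
            (by rw [h1, hX, hly, hlx]) (h2.trans hN)
          rw [hes'] at this
          exact this)
      rw [hJ]
      have e : J (inv y.strands + y.closed + z.closed) + pieceSign (.cross l₁.length pos) • sg
          + n.choose 2 • qq = J (inv y.strands + y.closed + z.closed) + n.choose 2 • qq + sg := by
        simp only [pieceSign, one_smul]; abel
      rw [e]
      exact h
    | cup l₁ l₂ s =>
      obtain ⟨m₁, m₂, c', hm, rfl, rfl⟩ := hls.cup_inv
      have hm2 : l₂.length = m₂.length := by
        simp only [List.length_append] at hlen hlx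
        omega
      have h := Ph_cupR (mon 1 0) (mon 0 1) isMono_a isMono_b s c' l₁ l₂ m₁ m₂ hm.symm hm2 0 0
        (J (inv y.strands + y.closed + z.closed) + (n + 1).choose 2 • qq) X (by rw [hX, hlx])
        (regV (mon 1 0) (mon (-1) 0) (mon 0 1) (mon 0 (-1)) w) (by
          intro X' h1 h2
          have := ih hy hfin hl' (by
              simp only [List.length_append, List.length_cons] at hlen hlx hly ⊢; omega) (n + 1)
            (by simp only [List.length_append, List.length_cons] at hlx hly; omega) X'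
            (by simp only [List.length_append, List.length_cons] at hlx hly; omega) (by omega)
          rw [hes'] at this
          exact this)
      rw [hJ]
      have e : J (inv y.strands + y.closed + z.closed) + pieceSign (.cup l₁.length s) • sg
          + n.choose 2 • qq + (2 * n) • qq
          = J (inv y.strands + y.closed + z.closed) + (n + 1).choose 2 • qq + 0 + 0
            + (l₁.length + 1) • sg + N1 X • qq := by
        rw [hN, choose_two_succ]
        simp only [pieceSign]
        module
      rw [qq_two_mul, add_zero] at e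
      rw [e]
      exact h
    | cap l₁ l₂ s =>
      obtain ⟨m₁, m₂, c', hm, rfl, rfl⟩ := hls.cap_inv
      have hm2 : l₂.length = m₂.length := by
        simp only [List.length_append, List.length_cons] at hlen hlx
        omega
      obtain ⟨k, rfl⟩ : ∃ k, n = k + 1 := by
        simp only [List.length_append, List.length_cons] at hlx
        exact ⟨n - 1, by omega⟩
      have h := Ph_capR (mon (-1) 0) (mon 0 (-1)) isMono_a' isMono_b' s c' l₁ l₂ m₁ m₂ hm.symm hm2
        0 0 (J (inv y.strands + y.closed + z.closed) + k.choose 2 • qq) X (by rw [hX, hlx])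
        (regV (mon 1 0) (mon (-1) 0) (mon 0 1) (mon 0 (-1)) w) (by
          intro X' h1 h2
          have := ih hy hfin hl' (by
              simp only [List.length_append, List.length_cons] at hlen hlx hly ⊢; omega) k
            (by simp only [List.length_append, List.length_cons] at hlx hly; omega) X'
            (by simp only [List.length_append, List.length_cons] at hlx hly; omega) (by omega)
          rw [hes'] at this
          exact this)
      rw [hJ]
      have e : J (inv y.strands + y.closed + z.closed) + pieceSign (.cap l₁.length s) • sg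
          + (k + 1).choose 2 • qq + (2 * 1) • qq
          = J (inv y.strands + y.closed + z.closed) + k.choose 2 • qq - 0 - 0
            + l₁.length • sg + (N1 X + 1) • qq := by
        rw [hN, choose_two_succ]
        simp only [pieceSign]
        module
      rw [qq_two_mul, add_zero] at e
      rw [e]
      exact h

lemma goodState_start : GoodState ⟨[(true, 0)], 1, 0⟩ := by
  refine ⟨⟨by simp, fun c => by simp, by simp⟩, by simp, by norm_num, by simp⟩

theorem Ph_LG {w : List Piece} {μ : ℕ} (hd : IsDiagram w μ) (ha : IsAlternating w) :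
    Ph ((μ + 1) • sg) (LG w) := by
  obtain ⟨c, n, m, hw, rfl⟩ := hd
  obtain ⟨x, hx⟩ := ha
  have ho := hw.oPath
  rw [LG_eq_regV (by simpa using ho)]
  have h := Ph_regV hw goodState_start rfl hx rfl 0 rfl [(false, false), (false, false)] rfl
    (by simp [N1])
  have e : J (inv [((true, 0) : Bool × ℕ)] + ((0 : ℕ) : ZMod 2) + (m : ZMod 2)) + Nat.choose 0 2 • qq +
      gR 0 0 ([((true, 0) : Bool × ℕ)].map Prod.fst) [x] [(false, false), (false, false)]
      = (m + 1 + 1) • sg := by
    have e1 : (m + 1 + 1) • sg = m • sg + (2 : ℕ) • sg := by module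
    rw [e1, two_sg, add_zero, ← J_nat]
    simp [gR, gT, inv, cr]
  rw [e] at h
  exact h

/-- **Theorem.**  The coefficients of the Links–Gould invariant `LG(L; t₀, t₁)`, `t₀ = a²`,
`t₁ = b²`, of an alternating link with `μ` components satisfy `(-1)^(μ+i+j+1) a_ij ≥ 0`. -/
theorem LG_sign {w : List Piece} {μ : ℕ} (hd : IsDiagram w μ) (ha : IsAlternating w) :
    (∀ p q : ℤ, (LG w).coeff (p, q) ≠ 0 → Even p ∧ Even q) ∧
    ∀ i j : ℤ, 0 ≤ (((-1 : ℤˣ) ^ ((μ : ℤ) + i + j + 1) : ℤˣ) : ℤ) * (LG w).coeff (2 * i, 2 * j) := by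
  have h := Ph_LG hd ha
  have hφ : (μ + 1) • sg = (((2 * (μ + 1) : ℤ) : ZMod 4), (0 : ZMod 2)) := by
    have : ∀ m : ℕ, m • sg = (((2 * m : ℤ) : ZMod 4), (0 : ZMod 2)) := by
      intro m
      ext
      · rw [Prod.smul_fst]
        show m • (2 : ZMod 4) = _
        rw [nsmul_eq_mul]
        push_cast
        ring
      · simp
    rw [this]
    push_cast
    rfl
  rw [hφ] at h
  have key4 : ∀ u v : ℤ, ((u : ℤ) : ZMod 4) = ((v : ℤ) : ZMod 4) → ∃ k : ℤ, v = u + 4 * k := by
    intro u v huv
    rw [ZMod.intCast_eq_intCast_iff_dvd_sub] at huv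
    obtain ⟨k, hk⟩ := huv
    exact ⟨k, by push_cast at hk; omega⟩
  have key2 : ∀ v : ℤ, (0 : ZMod 2) = ((v : ℤ) : ZMod 2) → ∃ k : ℤ, v = 2 * k := by
    intro v hv
    have : ((0 : ℤ) : ZMod 2) = ((v : ℤ) : ZMod 2) := by simpa using hv
    rw [ZMod.intCast_eq_intCast_iff_dvd_sub] at this
    obtain ⟨k, hk⟩ := this
    exact ⟨k, by push_cast at hk; omega⟩
  have hpos : ∀ p q : ℤ, 0 < (LG w).coeff (p, q) →
      (∃ k : ℤ, p + q = 2 * (μ + 1) + 4 * k) ∧ ∃ k : ℤ, q = 2 * k := by
    intro p q hpq
    have := (h p q).1 hpq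
    rw [Prod.mk.injEq] at this
    exact ⟨key4 _ _ this.1, key2 _ this.2⟩
  have hneg : ∀ p q : ℤ, (LG w).coeff (p, q) < 0 →
      (∃ k : ℤ, p + q + 2 = 2 * (μ + 1) + 4 * k) ∧ ∃ k : ℤ, q = 2 * k := by
    intro p q hpq
    have := (h p q).2 hpq
    rw [Prod.mk.injEq] at this
    have h1 := this.1
    have h2 : (((p + q : ℤ) : ZMod 4) + 2) = ((p + q + 2 : ℤ) : ZMod 4) := by push_cast; ring
    rw [h2] at h1
    exact ⟨key4 _ _ h1, key2 _ this.2⟩
  refine ⟨fun p q hpq => ?_, fun i j => ?_⟩
  · rcases lt_or_gt_of_ne hpq with h1 | h1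
    · obtain ⟨⟨k, hk⟩, l, hl⟩ := hneg p q h1
      exact ⟨⟨(μ : ℤ) + 2 * k - l, by omega⟩, ⟨l, by omega⟩⟩
    · obtain ⟨⟨k, hk⟩, l, hl⟩ := hpos p q h1
      exact ⟨⟨(μ : ℤ) + 1 + 2 * k - l, by omega⟩, ⟨l, by omega⟩⟩
  · rcases lt_trichotomy ((LG w).coeff (2 * i, 2 * j)) 0 with h1 | h1 | h1
    · obtain ⟨⟨k, hk⟩, -⟩ := hneg _ _ h1
      have e : (μ : ℤ) + i + j + 1 = 2 * ((μ : ℤ) + k) + 1 := by omega
      have e2 : ((-1 : ℤˣ) ^ ((μ : ℤ) + i + j + 1)) = -1 := by
        rw [e, zpow_add, zpow_mul, zpow_one]
        simp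
      rw [e2]
      simp only [Units.val_neg, Units.val_one]
      linarith
    · rw [h1, mul_zero]
    · obtain ⟨⟨k, hk⟩, -⟩ := hpos _ _ h1
      have e : (μ : ℤ) + i + j + 1 = 2 * ((μ : ℤ) + 1 + k) := by omega
      have e2 : ((-1 : ℤˣ) ^ ((μ : ℤ) + i + j + 1)) = 1 := by
        rw [e, zpow_mul]
        simp
      rw [e2]
      simp only [Units.val_one]
      linarith

end LGAlt
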