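import Pool.Agent.LGAlt.Region

/-!
# Phases

The phase of the signed monomial `± a^p b^q` is an element of `ZMod 4 × ZMod 2`, such that `-1`, `a`
and `b` have the phases `(2, 0)`, `(1, 0)` and `(1, 1)`.  `Ph φ x` says that all monomials of `x` have
the phase `φ`.
-/

namespace LGAlt

/-- the group of phases -/
abbrev Q := ZMod 4 × ZMod 2

/-- all monomials of `x` have the phase `φ` -/
def Ph (φ : Q) (x : L) : Prop :=
  ∀ p q : ℤ, (0 < x.coeff (p, q) → φ = (((p + q : ℤ) : ZMod 4), ((q : ℤ) : ZMod 2))) ∧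
    (x.coeff (p, q) < 0 → φ = (((p + q : ℤ) : ZMod 4) + 2, ((q : ℤ) : ZMod 2)))

lemma Ph.zero (φ : Q) : Ph φ 0 := by
  intro p q
  simp

lemma Ph.add {φ : Q} {x y : L} (hx : Ph φ x) (hy : Ph φ y) : Ph φ (x + y) := by
  intro p q
  have h1 := hx p q
  have h2 := hy p q
  have h3 : (x + y).coeff (p, q) = x.coeff (p, q) + y.coeff (p, q) := Finsupp.add_apply _ _ _
  rw [h3]
  refine ⟨fun h => ?_, fun h => ?_⟩
  · by_cases h4 : 0 < x.coeff (p, q)
    · exact h1.1 h4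
    · exact h2.1 (by omega)
  · by_cases h4 : x.coeff (p, q) < 0
    · exact h1.2 h4
    · exact h2.2 (by omega)

lemma Ph.neg {φ : Q} {x : L} (hx : Ph (φ + (2, 0)) x) : Ph φ (-x) := by
  intro p q
  have h1 := hx p q
  have h3 : (-x).coeff (p, q) = -x.coeff (p, q) := Finsupp.neg_apply _ _
  rw [h3]
  have key : ∀ (u v : Q), u + (2, 0) = v → u = v + (2, 0) := by decide
  refine ⟨fun h => ?_, fun h => ?_⟩
  · have := key _ _ (h1.2 (by omega))
    rw [this]
    ext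
    · simp only [Prod.fst_add, add_assoc]
      have : (2 : ZMod 4) + 2 = 0 := by decide
      rw [this, add_zero]
    · simp
  · have := key _ _ (h1.1 (by omega))
    rw [this]
    ext <;> simp

lemma Ph.sub {φ : Q} {x y : L} (hx : Ph φ x) (hy : Ph (φ + (2, 0)) y) : Ph φ (x - y) := by
  rw [sub_eq_add_neg]
  exact hx.add hy.neg

/-- `c` is a signed monomial with the phase `κ` -/
def IsMono (κ : Q) (c : L) : Prop :=
  ∃ p q : ℤ, (c = mon p q ∧ κ = (((p + q : ℤ) : ZMod 4), ((q : ℤ) : ZMod 2)))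

lemma mon_mul (p q r s : ℤ) : mon p q * mon r s = mon (p + r) (q + s) := by
  simp [mon]

lemma mon_zero : mon 0 0 = 1 := rfl

lemma IsMono.one : IsMono 0 (1 : L) := ⟨0, 0, mon_zero.symm, by simp; rfl⟩

lemma IsMono.mul {κ κ' : Q} {c c' : L} (h : IsMono κ c) (h' : IsMono κ' c') :
    IsMono (κ + κ') (c * c') := by
  obtain ⟨p, q, rfl, rfl⟩ := h
  obtain ⟨r, s, rfl, rfl⟩ := h'
  refine ⟨p + r, q + s, mon_mul p q r s, ?_⟩
  ext
  · simp; ring
  · simp

lemma IsMono.sq {κ : Q} {c : L} (h : IsMono κ c) : IsMono (κ + κ) (c ^ 2) := by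
  rw [pow_two]; exact h.mul h

lemma isMono_a : IsMono (1, 0) (mon 1 0) := ⟨1, 0, rfl, by decide⟩
lemma isMono_a' : IsMono (3, 0) (mon (-1) 0) := ⟨-1, 0, rfl, by decide⟩
lemma isMono_b : IsMono (1, 1) (mon 0 1) := ⟨0, 1, rfl, by decide⟩
lemma isMono_b' : IsMono (3, 1) (mon 0 (-1)) := ⟨0, -1, rfl, by decide⟩

lemma mon_mul_apply (p q r s : ℤ) (x : L) :
    (mon p q * x).coeff (r, s) = x.coeff (r - p, s - q) := by
  have h := AddMonoidAlgebra.coeff_single_mul_eq_mul_coeff (x := x) (m := (p, q)) (r := (1 : ℤ))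
    (m₁ := (r, s)) (r - p, s - q) (by
      rintro ⟨u, v⟩ -
      simp only [Prod.mk_add_mk, Prod.mk.injEq]
      constructor <;> rintro ⟨h1, h2⟩ <;> constructor <;> omega)
  rw [one_mul] at h
  exact h

lemma Ph.mono_mul {κ φ ψ : Q} {c x : L} (hc : IsMono κ c) (hx : Ph φ x) (h : ψ = κ + φ) :
    Ph ψ (c * x) := by
  obtain ⟨p, q, rfl, rfl⟩ := hc
  subst h
  intro r s
  rw [mon_mul_apply]
  have h1 := hx (r - p) (s - q)
  refine ⟨fun h => ?_, fun h => ?_⟩
  · rw [h1.1 h]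
    ext
    · simp; ring
    · simp
  · rw [h1.2 h]
    ext
    · simp; ring
    · simp

end LGAlt
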