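import Pool.Agent.LGAlt.Defs

/-!
# Region states

Every region of a level carries a state in `Bool × Bool` (two kinds of holes), the outer regions are
empty.  All maps are given in transposed form, applied to a function `H` (or `G`, `g`).
-/

namespace LGAlt

/-- state of a region -/
abbrev St := Bool × Bool

section

variable {K : Type*} [CommRing K] (a a' b b' : K)

/-- splitting of a region state into a left part and a right part -/
def ST (x : St) (H : St → St → K) : K :=
  match x with
  | (false, false) => H (false, false) (false, false)
  | (true, false) => H (true, false) (false, false) + H (false, false) (true, false)
  | (false, true) => H (false, true) (false, false) + H (false, false) (false, true)
  | (true, true) => H (true, true) (false, false) - a * b * H (true, false) (false, true)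
      + H (false, true) (true, false) + H (false, false) (true, true)

/-- a strand with orientation `e` between the right part `p` of the region on its left and the left
part `l` of the region on its right -/
def muT (e : Bool) (p l : St) (g : Fin 4 → K) : K :=
  match e, p, l with
  | true, (false, false), (false, false) => g 0
  | true, (false, false), (true, false) => g 1
  | true, (false, false), (false, true) => g 2
  | true, (false, false), (true, true) => a * b ^ 2 * (a ^ 2 - 1) * g 3
  | true, (true, false), (false, false) => -a * g 1
  | true, (false, true), (false, false) => -a * g 2
  | true, (true, true), (false, false) => a * (a ^ 2 - 1) * g 3
  | true, (true, false), (false, true) => a * b * (a ^ 2 - 1) * g 3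
  | true, (false, true), (true, false) => -(a ^ 2 - 1) * g 3
  | false, (false, false), (false, false) => g 3
  | false, (false, false), (true, false) => -(a * b * (a ^ 2 - 1)) * g 2
  | false, (false, false), (false, true) => (a ^ 2 - 1) * g 1
  | false, (false, false), (true, true) => a ^ 3 * b ^ 2 * (a ^ 2 - 1) * g 0
  | false, (true, false), (false, false) => a * b ^ 2 * (a ^ 2 - 1) * g 2
  | false, (false, true), (false, false) => -(b * (a ^ 2 - 1)) * g 1
  | false, (true, true), (false, false) => a * b ^ 2 * (a ^ 2 - 1) * g 0
  | false, (true, false), (false, true) => a ^ 2 * b ^ 2 * (a ^ 2 - 1) * g 0
  | false, (false, true), (true, false) => -(a * b * (a ^ 2 - 1)) * g 0
  | _, _, _ => 0

/-- a crossing: `p`, `x`, `y` are the states of the regions on the left, below and on the right of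
it; `G` is applied to the states of the regions on the left, above and on the right -/
def XT (pos : Bool) (p x y : St) (G : St → St → St → K) : K :=
  match pos, p, x, y with
  | true, (false, false), (false, false), (false, false) =>
      a ^ 2 * G (false, false) (false, false) (false, false)
  | true, (false, false), (false, false), (true, false) =>
      a ^ 2 * G (false, false) (false, false) (true, false)
      + a * G (false, false) (true, false) (false, false)
  | true, (false, false), (false, false), (false, true) =>
      a ^ 2 * G (false, false) (false, false) (false, true)
      + a * G (false, false) (false, true) (false, false)
  | true, (false, false), (false, false), (true, true) =>
      a ^ 2 * G (false, false) (false, false) (true, true)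
      + a * G (false, false) (false, true) (true, false)
      - a ^ 2 * b * G (false, false) (true, false) (false, true)
      + G (false, false) (true, true) (false, false)
  | true, (false, false), (true, false), (false, false) =>
      -(G (false, false) (true, false) (false, false))
  | true, (false, false), (true, false), (true, false) =>
      -(G (false, false) (true, false) (true, false))
  | true, (false, false), (true, false), (false, true) =>
      -(G (false, false) (true, false) (false, true))
      + b * G (false, false) (true, true) (false, false)
  | true, (false, false), (true, false), (true, true) =>
      -(G (false, false) (true, false) (true, true))
      + b * G (false, false) (true, true) (true, false)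
  | true, (false, false), (false, true), (false, false) =>
      -(G (false, false) (false, true) (false, false))
  | true, (false, false), (false, true), (true, false) =>
      -(G (false, false) (false, true) (true, false))
      - a' * G (false, false) (true, true) (false, false)
  | true, (false, false), (false, true), (false, true) =>
      -(G (false, false) (false, true) (false, true))
  | true, (false, false), (false, true), (true, true) =>
      -(G (false, false) (false, true) (true, true))
      + b * G (false, false) (true, true) (false, true)
  | true, (false, false), (true, true), (false, false) =>
      b ^ 2 * G (false, false) (true, true) (false, false)
  | true, (false, false), (true, true), (true, false) =>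
      b ^ 2 * G (false, false) (true, true) (true, false)
  | true, (false, false), (true, true), (false, true) =>
      b ^ 2 * G (false, false) (true, true) (false, true)
  | true, (false, false), (true, true), (true, true) =>
      b ^ 2 * G (false, false) (true, true) (true, true)
  | true, (true, false), (false, false), (false, false) =>
      a ^ 2 * G (true, false) (false, false) (false, false)
      + a * G (false, false) (true, false) (false, false)
  | true, (true, false), (false, false), (true, false) =>
      a ^ 2 * G (true, false) (false, false) (true, false)
      + a * G (false, false) (true, false) (true, false)
      + a * G (true, false) (true, false) (false, false)
  | true, (true, false), (false, false), (false, true) =>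
      a ^ 2 * G (true, false) (false, false) (false, true)
      + a * G (true, false) (false, true) (false, false)
      + a * G (false, false) (true, false) (false, true)
      - a * b * G (false, false) (true, true) (false, false)
  | true, (true, false), (false, false), (true, true) =>
      a ^ 2 * G (true, false) (false, false) (true, true)
      + a * G (true, false) (false, true) (true, false)
      + a * G (false, false) (true, false) (true, true)
      - a * b * G (false, false) (true, true) (true, false)
      - a ^ 2 * b * G (true, false) (true, false) (false, true)
      + G (true, false) (true, true) (false, false)
  | true, (true, false), (true, false), (false, false) =>
      -(G (true, false) (true, false) (false, false))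
  | true, (true, false), (true, false), (true, false) =>
      -(G (true, false) (true, false) (true, false))
  | true, (true, false), (true, false), (false, true) =>
      -(G (true, false) (true, false) (false, true))
      + b * G (true, false) (true, true) (false, false)
  | true, (true, false), (true, false), (true, true) =>
      -(G (true, false) (true, false) (true, true))
      + b * G (true, false) (true, true) (true, false)
  | true, (true, false), (false, true), (false, false) =>
      -(G (true, false) (false, true) (false, false))
      + b * G (false, false) (true, true) (false, false)
  | true, (true, false), (false, true), (true, false) =>
      -(G (true, false) (false, true) (true, false))
      + b * G (false, false) (true, true) (true, false)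
      - a' * G (true, false) (true, true) (false, false)
  | true, (true, false), (false, true), (false, true) =>
      -(G (true, false) (false, true) (false, true))
      + b * G (false, false) (true, true) (false, true)
  | true, (true, false), (false, true), (true, true) =>
      -(G (true, false) (false, true) (true, true))
      + b * G (false, false) (true, true) (true, true)
      + b * G (true, false) (true, true) (false, true)
  | true, (true, false), (true, true), (false, false) =>
      b ^ 2 * G (true, false) (true, true) (false, false)
  | true, (true, false), (true, true), (true, false) =>
      b ^ 2 * G (true, false) (true, true) (true, false)
  | true, (true, false), (true, true), (false, true) =>
      b ^ 2 * G (true, false) (true, true) (false, true)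
  | true, (true, false), (true, true), (true, true) =>
      b ^ 2 * G (true, false) (true, true) (true, true)
  | true, (false, true), (false, false), (false, false) =>
      a ^ 2 * G (false, true) (false, false) (false, false)
      + a * G (false, false) (false, true) (false, false)
  | true, (false, true), (false, false), (true, false) =>
      a ^ 2 * G (false, true) (false, false) (true, false)
      + a * G (false, false) (false, true) (true, false)
      + a * G (false, true) (true, false) (false, false)
      + G (false, false) (true, true) (false, false)
  | true, (false, true), (false, false), (false, true) =>
      a ^ 2 * G (false, true) (false, false) (false, true)
      + a * G (false, false) (false, true) (false, true)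
      + a * G (false, true) (false, true) (false, false)
  | true, (false, true), (false, false), (true, true) =>
      a ^ 2 * G (false, true) (false, false) (true, true)
      + a * G (false, false) (false, true) (true, true)
      + a * G (false, true) (false, true) (true, false)
      - a ^ 2 * b * G (false, true) (true, false) (false, true)
      - a * b * G (false, false) (true, true) (false, true)
      + G (false, true) (true, true) (false, false)
  | true, (false, true), (true, false), (false, false) =>
      -(G (false, true) (true, false) (false, false))
      - a' * G (false, false) (true, true) (false, false)
  | true, (false, true), (true, false), (true, false) =>
      -(G (false, true) (true, false) (true, false))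
      - a' * G (false, false) (true, true) (true, false)
  | true, (false, true), (true, false), (false, true) =>
      -(G (false, true) (true, false) (false, true))
      - a' * G (false, false) (true, true) (false, true)
      + b * G (false, true) (true, true) (false, false)
  | true, (false, true), (true, false), (true, true) =>
      -(G (false, true) (true, false) (true, true))
      - a' * G (false, false) (true, true) (true, true)
      + b * G (false, true) (true, true) (true, false)
  | true, (false, true), (false, true), (false, false) =>
      -(G (false, true) (false, true) (false, false))
  | true, (false, true), (false, true), (true, false) =>
      -(G (false, true) (false, true) (true, false))
      - a' * G (false, true) (true, true) (false, false)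
  | true, (false, true), (false, true), (false, true) =>
      -(G (false, true) (false, true) (false, true))
  | true, (false, true), (false, true), (true, true) =>
      -(G (false, true) (false, true) (true, true))
      + b * G (false, true) (true, true) (false, true)
  | true, (false, true), (true, true), (false, false) =>
      b ^ 2 * G (false, true) (true, true) (false, false)
  | true, (false, true), (true, true), (true, false) =>
      b ^ 2 * G (false, true) (true, true) (true, false)
  | true, (false, true), (true, true), (false, true) =>
      b ^ 2 * G (false, true) (true, true) (false, true)
  | true, (false, true), (true, true), (true, true) =>
      b ^ 2 * G (false, true) (true, true) (true, true)
  | true, (true, true), (false, false), (false, false) =>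
      a ^ 2 * G (true, true) (false, false) (false, false)
      - a ^ 2 * b * G (true, false) (false, true) (false, false)
      + a * G (false, true) (true, false) (false, false)
      + G (false, false) (true, true) (false, false)
  | true, (true, true), (false, false), (true, false) =>
      a ^ 2 * G (true, true) (false, false) (true, false)
      - a ^ 2 * b * G (true, false) (false, true) (true, false)
      + a * G (false, true) (true, false) (true, false)
      + G (false, false) (true, true) (true, false)
      + a * G (true, true) (true, false) (false, false)
      - a * b * G (true, false) (true, true) (false, false)
  | true, (true, true), (false, false), (false, true) =>
      a ^ 2 * G (true, true) (false, false) (false, true)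
      - a ^ 2 * b * G (true, false) (false, true) (false, true)
      + a * G (true, true) (false, true) (false, false)
      + a * G (false, true) (true, false) (false, true)
      + G (false, false) (true, true) (false, true)
      - a * b * G (false, true) (true, true) (false, false)
  | true, (true, true), (false, false), (true, true) =>
      a ^ 2 * G (true, true) (false, false) (true, true)
      - a ^ 2 * b * G (true, false) (false, true) (true, true)
      + a * G (true, true) (false, true) (true, false)
      + a * G (false, true) (true, false) (true, true)
      + G (false, false) (true, true) (true, true)
      - a * b * G (false, true) (true, true) (true, false)
      - a ^ 2 * b * G (true, true) (true, false) (false, true)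
      + a ^ 2 * b ^ 2 * G (true, false) (true, true) (false, true)
      + G (true, true) (true, true) (false, false)
  | true, (true, true), (true, false), (false, false) =>
      -(G (true, true) (true, false) (false, false))
      + b * G (true, false) (true, true) (false, false)
  | true, (true, true), (true, false), (true, false) =>
      -(G (true, true) (true, false) (true, false))
      + b * G (true, false) (true, true) (true, false)
  | true, (true, true), (true, false), (false, true) =>
      -(G (true, true) (true, false) (false, true))
      + b * G (true, false) (true, true) (false, true)
      + b * G (true, true) (true, true) (false, false)
  | true, (true, true), (true, false), (true, true) =>
      -(G (true, true) (true, false) (true, true))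
      + b * G (true, false) (true, true) (true, true)
      + b * G (true, true) (true, true) (true, false)
  | true, (true, true), (false, true), (false, false) =>
      -(G (true, true) (false, true) (false, false))
      + b * G (false, true) (true, true) (false, false)
  | true, (true, true), (false, true), (true, false) =>
      -(G (true, true) (false, true) (true, false))
      + b * G (false, true) (true, true) (true, false)
      - a' * G (true, true) (true, true) (false, false)
  | true, (true, true), (false, true), (false, true) =>
      -(G (true, true) (false, true) (false, true))
      + b * G (false, true) (true, true) (false, true)
  | true, (true, true), (false, true), (true, true) =>
      -(G (true, true) (false, true) (true, true))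
      + b * G (false, true) (true, true) (true, true)
      + b * G (true, true) (true, true) (false, true)
  | true, (true, true), (true, true), (false, false) =>
      b ^ 2 * G (true, true) (true, true) (false, false)
  | true, (true, true), (true, true), (true, false) =>
      b ^ 2 * G (true, true) (true, true) (true, false)
  | true, (true, true), (true, true), (false, true) =>
      b ^ 2 * G (true, true) (true, true) (false, true)
  | true, (true, true), (true, true), (true, true) =>
      b ^ 2 * G (true, true) (true, true) (true, true)
  | false, (false, false), (false, false), (false, false) =>
      a' ^ 2 * G (false, false) (false, false) (false, false)
  | false, (false, false), (false, false), (true, false) =>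
      a' ^ 2 * G (false, false) (false, false) (true, false)
      + a' * G (false, false) (true, false) (false, false)
  | false, (false, false), (false, false), (false, true) =>
      a' ^ 2 * G (false, false) (false, false) (false, true)
      + a' * G (false, false) (false, true) (false, false)
  | false, (false, false), (false, false), (true, true) =>
      a' ^ 2 * G (false, false) (false, false) (true, true)
      + a' * G (false, false) (false, true) (true, false)
      - b * G (false, false) (true, false) (false, true)
      + G (false, false) (true, true) (false, false)
  | false, (false, false), (true, false), (false, false) =>
      -(G (false, false) (true, false) (false, false))
  | false, (false, false), (true, false), (true, false) =>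
      -(G (false, false) (true, false) (true, false))
  | false, (false, false), (true, false), (false, true) =>
      -(G (false, false) (true, false) (false, true))
      + b' * G (false, false) (true, true) (false, false)
  | false, (false, false), (true, false), (true, true) =>
      -(G (false, false) (true, false) (true, true))
      + b' * G (false, false) (true, true) (true, false)
  | false, (false, false), (false, true), (false, false) =>
      -(G (false, false) (false, true) (false, false))
  | false, (false, false), (false, true), (true, false) =>
      -(G (false, false) (false, true) (true, false))
      - a' * b' ^ 2 * G (false, false) (true, true) (false, false)
  | false, (false, false), (false, true), (false, true) =>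
      -(G (false, false) (false, true) (false, true))
  | false, (false, false), (false, true), (true, true) =>
      -(G (false, false) (false, true) (true, true))
      + b' * G (false, false) (true, true) (false, true)
  | false, (false, false), (true, true), (false, false) =>
      b' ^ 2 * G (false, false) (true, true) (false, false)
  | false, (false, false), (true, true), (true, false) =>
      b' ^ 2 * G (false, false) (true, true) (true, false)
  | false, (false, false), (true, true), (false, true) =>
      b' ^ 2 * G (false, false) (true, true) (false, true)
  | false, (false, false), (true, true), (true, true) =>
      b' ^ 2 * G (false, false) (true, true) (true, true)
  | false, (true, false), (false, false), (false, false) =>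
      a' ^ 2 * G (true, false) (false, false) (false, false)
      + a' * G (false, false) (true, false) (false, false)
  | false, (true, false), (false, false), (true, false) =>
      a' ^ 2 * G (true, false) (false, false) (true, false)
      + a' * G (false, false) (true, false) (true, false)
      + a' * G (true, false) (true, false) (false, false)
  | false, (true, false), (false, false), (false, true) =>
      a' ^ 2 * G (true, false) (false, false) (false, true)
      + a' * G (true, false) (false, true) (false, false)
      + a' * G (false, false) (true, false) (false, true)
      - a' * b' * G (false, false) (true, true) (false, false)
  | false, (true, false), (false, false), (true, true) =>
      a' ^ 2 * G (true, false) (false, false) (true, true)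
      + a' * G (true, false) (false, true) (true, false)
      + a' * G (false, false) (true, false) (true, true)
      - a' * b' * G (false, false) (true, true) (true, false)
      - b * G (true, false) (true, false) (false, true)
      + G (true, false) (true, true) (false, false)
  | false, (true, false), (true, false), (false, false) =>
      -(G (true, false) (true, false) (false, false))
  | false, (true, false), (true, false), (true, false) =>
      -(G (true, false) (true, false) (true, false))
  | false, (true, false), (true, false), (false, true) =>
      -(G (true, false) (true, false) (false, true))
      + b' * G (true, false) (true, true) (false, false)
  | false, (true, false), (true, false), (true, true) =>
      -(G (true, false) (true, false) (true, true))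
      + b' * G (true, false) (true, true) (true, false)
  | false, (true, false), (false, true), (false, false) =>
      -(G (true, false) (false, true) (false, false))
      + b' * G (false, false) (true, true) (false, false)
  | false, (true, false), (false, true), (true, false) =>
      -(G (true, false) (false, true) (true, false))
      + b' * G (false, false) (true, true) (true, false)
      - a' * b' ^ 2 * G (true, false) (true, true) (false, false)
  | false, (true, false), (false, true), (false, true) =>
      -(G (true, false) (false, true) (false, true))
      + b' * G (false, false) (true, true) (false, true)
  | false, (true, false), (false, true), (true, true) =>
      -(G (true, false) (false, true) (true, true))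
      + b' * G (false, false) (true, true) (true, true)
      + b' * G (true, false) (true, true) (false, true)
  | false, (true, false), (true, true), (false, false) =>
      b' ^ 2 * G (true, false) (true, true) (false, false)
  | false, (true, false), (true, true), (true, false) =>
      b' ^ 2 * G (true, false) (true, true) (true, false)
  | false, (true, false), (true, true), (false, true) =>
      b' ^ 2 * G (true, false) (true, true) (false, true)
  | false, (true, false), (true, true), (true, true) =>
      b' ^ 2 * G (true, false) (true, true) (true, true)
  | false, (false, true), (false, false), (false, false) =>
      a' ^ 2 * G (false, true) (false, false) (false, false)
      + a' * G (false, false) (false, true) (false, false)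
  | false, (false, true), (false, false), (true, false) =>
      a' ^ 2 * G (false, true) (false, false) (true, false)
      + a' * G (false, false) (false, true) (true, false)
      + a' * G (false, true) (true, false) (false, false)
      + a' ^ 2 * b' ^ 2 * G (false, false) (true, true) (false, false)
  | false, (false, true), (false, false), (false, true) =>
      a' ^ 2 * G (false, true) (false, false) (false, true)
      + a' * G (false, false) (false, true) (false, true)
      + a' * G (false, true) (false, true) (false, false)
  | false, (false, true), (false, false), (true, true) =>
      a' ^ 2 * G (false, true) (false, false) (true, true)
      + a' * G (false, false) (false, true) (true, true)
      + a' * G (false, true) (false, true) (true, false)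
      - b * G (false, true) (true, false) (false, true)
      - a' * b' * G (false, false) (true, true) (false, true)
      + G (false, true) (true, true) (false, false)
  | false, (false, true), (true, false), (false, false) =>
      -(G (false, true) (true, false) (false, false))
      - a' * b' ^ 2 * G (false, false) (true, true) (false, false)
  | false, (false, true), (true, false), (true, false) =>
      -(G (false, true) (true, false) (true, false))
      - a' * b' ^ 2 * G (false, false) (true, true) (true, false)
  | false, (false, true), (true, false), (false, true) =>
      -(G (false, true) (true, false) (false, true))
      - a' * b' ^ 2 * G (false, false) (true, true) (false, true)
      + b' * G (false, true) (true, true) (false, false)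
  | false, (false, true), (true, false), (true, true) =>
      -(G (false, true) (true, false) (true, true))
      - a' * b' ^ 2 * G (false, false) (true, true) (true, true)
      + b' * G (false, true) (true, true) (true, false)
  | false, (false, true), (false, true), (false, false) =>
      -(G (false, true) (false, true) (false, false))
  | false, (false, true), (false, true), (true, false) =>
      -(G (false, true) (false, true) (true, false))
      - a' * b' ^ 2 * G (false, true) (true, true) (false, false)
  | false, (false, true), (false, true), (false, true) =>
      -(G (false, true) (false, true) (false, true))
  | false, (false, true), (false, true), (true, true) =>
      -(G (false, true) (false, true) (true, true))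
      + b' * G (false, true) (true, true) (false, true)
  | false, (false, true), (true, true), (false, false) =>
      b' ^ 2 * G (false, true) (true, true) (false, false)
  | false, (false, true), (true, true), (true, false) =>
      b' ^ 2 * G (false, true) (true, true) (true, false)
  | false, (false, true), (true, true), (false, true) =>
      b' ^ 2 * G (false, true) (true, true) (false, true)
  | false, (false, true), (true, true), (true, true) =>
      b' ^ 2 * G (false, true) (true, true) (true, true)
  | false, (true, true), (false, false), (false, false) =>
      a' ^ 2 * G (true, true) (false, false) (false, false)
      - b * G (true, false) (false, true) (false, false)
      + a' * G (false, true) (true, false) (false, false)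
      + G (false, false) (true, true) (false, false)
  | false, (true, true), (false, false), (true, false) =>
      a' ^ 2 * G (true, true) (false, false) (true, false)
      - b * G (true, false) (false, true) (true, false)
      + a' * G (false, true) (true, false) (true, false)
      + G (false, false) (true, true) (true, false)
      + a' * G (true, true) (true, false) (false, false)
      - a' * b' * G (true, false) (true, true) (false, false)
  | false, (true, true), (false, false), (false, true) =>
      a' ^ 2 * G (true, true) (false, false) (false, true)
      - b * G (true, false) (false, true) (false, true)
      + a' * G (true, true) (false, true) (false, false)
      + a' * G (false, true) (true, false) (false, true)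
      + G (false, false) (true, true) (false, true)
      - a' * b' * G (false, true) (true, true) (false, false)
  | false, (true, true), (false, false), (true, true) =>
      a' ^ 2 * G (true, true) (false, false) (true, true)
      - b * G (true, false) (false, true) (true, true)
      + a' * G (true, true) (false, true) (true, false)
      + a' * G (false, true) (true, false) (true, true)
      + G (false, false) (true, true) (true, true)
      - a' * b' * G (false, true) (true, true) (true, false)
      - b * G (true, true) (true, false) (false, true)
      + G (true, false) (true, true) (false, true) + G (true, true) (true, true) (false, false)
  | false, (true, true), (true, false), (false, false) =>
      -(G (true, true) (true, false) (false, false))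
      + b' * G (true, false) (true, true) (false, false)
  | false, (true, true), (true, false), (true, false) =>
      -(G (true, true) (true, false) (true, false))
      + b' * G (true, false) (true, true) (true, false)
  | false, (true, true), (true, false), (false, true) =>
      -(G (true, true) (true, false) (false, true))
      + b' * G (true, false) (true, true) (false, true)
      + b' * G (true, true) (true, true) (false, false)
  | false, (true, true), (true, false), (true, true) =>
      -(G (true, true) (true, false) (true, true))
      + b' * G (true, false) (true, true) (true, true)
      + b' * G (true, true) (true, true) (true, false)
  | false, (true, true), (false, true), (false, false) =>
      -(G (true, true) (false, true) (false, false))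
      + b' * G (false, true) (true, true) (false, false)
  | false, (true, true), (false, true), (true, false) =>
      -(G (true, true) (false, true) (true, false))
      + b' * G (false, true) (true, true) (true, false)
      - a' * b' ^ 2 * G (true, true) (true, true) (false, false)
  | false, (true, true), (false, true), (false, true) =>
      -(G (true, true) (false, true) (false, true))
      + b' * G (false, true) (true, true) (false, true)
  | false, (true, true), (false, true), (true, true) =>
      -(G (true, true) (false, true) (true, true))
      + b' * G (false, true) (true, true) (true, true)
      + b' * G (true, true) (true, true) (false, true)
  | false, (true, true), (true, true), (false, false) =>
      b' ^ 2 * G (true, true) (true, true) (false, false)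
  | false, (true, true), (true, true), (true, false) =>
      b' ^ 2 * G (true, true) (true, true) (true, false)
  | false, (true, true), (true, true), (false, true) =>
      b' ^ 2 * G (true, true) (true, true) (false, true)
  | false, (true, true), (true, true), (true, true) =>
      b' ^ 2 * G (true, true) (true, true) (true, true)

/-- merging of two regions at a cap -/
def MT (p y : St) (H : St → K) : K :=
  match p, y with
  | (true, true), y => H y
  | p, (true, true) => H p
  | (true, false), (false, true) => H (false, false)
  | (false, true), (true, false) => -(a' * b') * H (false, false)
  | _, _ => 0

/-- the constant appearing at cups and caps -/
def kap : K := a * b ^ 2 * (a ^ 2 - 1)

/-- region form of a crossing; the list contains the states of all regions, the outer ones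
included -/
def crossR (pos : Bool) : ℕ → (List St → K) → List St → K
  | 0, G, p :: x :: y :: xs => XT a a' b b' pos p x y (fun p' x' y' => G (p' :: x' :: y' :: xs))
  | 0, _, _ => 0
  | k + 1, G, z :: xs => crossR pos k (fun X => G (z :: X)) xs
  | _ + 1, _, [] => 0

/-- region form of a cup -/
def cupR : ℕ → (List St → K) → List St → K
  | 0, G, x :: xs => ST a b x (fun l r => G (l :: (true, true) :: r :: xs))
  | 0, _, [] => 0
  | k + 1, G, z :: xs => cupR k (fun X => G (z :: X)) xs
  | _ + 1, _, [] => 0

/-- region form of a cap -/
def capR : ℕ → (List St → K) → List St → K
  | 0, G, p :: x :: y :: xs => if x = (false, false) then MT a' b' p y (fun z => G (z :: xs)) else 0
  | 0, _, _ => 0
  | k + 1, G, z :: xs => capR k (fun X => G (z :: X)) xs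
  | _ + 1, _, [] => 0

/-- The vector attached to the list of region states `x₀ :: xs` (all regions, the outer ones
included) and the orientations `es`, applied to `F`. -/
def Phi : List Bool → List St → (List (Fin 4) → K) → K
  | [], [x], F => if x = (false, false) then F [] else 0
  | e :: es, p :: x :: xs, F =>
      ST a b x (fun l r => muT a b e p l (fun v => Phi es (r :: xs) (fun u => F (v :: u))))
  | _, _, _ => 0

end

end LGAlt
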