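import Pool.Agent.LGAlt.Inter

/-!
# From the operators to the region model
-/

namespace LGAlt

section

variable {K : Type*} [CommRing K] (a a' b b' : K)

/-- the region form of an elementary piece -/
def pieceR : Piece → (List St → K) → List St → K
  | .cross k pos => crossR a a' b b' pos k
  | .cup k _ => cupR a b k
  | .cap k _ => capR a' b' k

/-- the region form of a word -/
def regV : List Piece → List St → K
  | [], X => if X = [(false, false), (false, false)] then 1 else 0
  | p :: w, X => pieceR a a' b b' p (regV w) X

end

/-- the orientations of the strands -/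
inductive OStep : Piece → List Bool → List Bool → Prop
  | cross (l₁ l₂ : List Bool) (pos : Bool) :
      OStep (.cross l₁.length pos) (l₁ ++ true :: true :: l₂) (l₁ ++ true :: true :: l₂)
  | cup (l₁ l₂ : List Bool) (s : Bool) :
      OStep (.cup l₁.length s) (l₁ ++ l₂) (l₁ ++ s :: (!s) :: l₂)
  | cap (l₁ l₂ : List Bool) (s : Bool) :
      OStep (.cap l₁.length s) (l₁ ++ s :: (!s) :: l₂) (l₁ ++ l₂)

inductive OPath : List Piece → List Bool → List Bool → Prop
  | nil (x : List Bool) : OPath [] x x
  | cons (p : Piece) (w : List Piece) (x y z : List Bool) :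
      OStep p x y → OPath w y z → OPath (p :: w) x z

lemma map_relabel_fst (c d : ℕ) (l : List (Bool × ℕ)) :
    (l.map (relabel c d)).map Prod.fst = l.map Prod.fst := by
  rw [List.map_map]
  rfl

lemma Step.oStep {p : Piece} {x y : State} (h : Step p x y) :
    OStep p (x.strands.map Prod.fst) (y.strands.map Prod.fst) := by
  cases h with
  | cross l₁ l₂ c d n m pos =>
    simpa using OStep.cross (l₁.map Prod.fst) (l₂.map Prod.fst) pos
  | cup l₁ l₂ s n m =>
    simpa using OStep.cup (l₁.map Prod.fst) (l₂.map Prod.fst) s
  | cap_same l₁ l₂ s c n m =>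
    simpa using OStep.cap (l₁.map Prod.fst) (l₂.map Prod.fst) s
  | cap_ne l₁ l₂ s c d n m hcd =>
    simp only [map_relabel_fst]
    simpa using OStep.cap (l₁.map Prod.fst) (l₂.map Prod.fst) s

lemma Path.oPath {w : List Piece} {x y : State} (h : Path w x y) :
    OPath w (x.strands.map Prod.fst) (y.strands.map Prod.fst) := by
  induction h with
  | nil x => exact .nil _
  | cons p w x y z hs _ ih => exact .cons _ _ _ _ _ hs.oStep ih

/-- number of cups -/
def ncup : List Piece → ℕ
  | [] => 0
  | .cup _ _ :: w => ncup w + 1
  | .cross _ _ :: w => ncup w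
  | .cap _ _ :: w => ncup w

/-- number of caps -/
def ncap : List Piece → ℕ
  | [] => 0
  | .cap _ _ :: w => ncap w + 1
  | .cross _ _ :: w => ncap w
  | .cup _ _ :: w => ncap w

lemma OPath.count {w : List Piece} {x y : List Bool} (h : OPath w x y) :
    x.length + 2 * ncup w = y.length + 2 * ncap w := by
  induction h with
  | nil x => rfl
  | cons p w x y z hs _ ih =>
    cases hs <;> simp only [ncup, ncap, List.length_append, List.length_cons] at ih ⊢ <;> omega

section congr

variable {K : Type*} [CommRing K] (a a' b b' : K)

lemma crossR_congr (pos : Bool) (k : ℕ) (X : List St) (G G' : List St → K)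
    (h : ∀ X', X'.length = X.length → G X' = G' X') :
    crossR a a' b b' pos k G X = crossR a a' b b' pos k G' X := by
  induction k generalizing X G G' with
  | zero =>
    match X with
    | [] => rfl
    | [_] => rfl
    | [_, _] => rfl
    | p :: x :: y :: xs =>
      simp only [crossR]
      congr 1
      funext p' x' y'
      exact h _ (by simp)
  | succ k ih =>
    match X with
    | [] => rfl
    | z :: xs =>
      simp only [crossR]
      exact ih xs _ _ (fun X' h' => h _ (by simp [h']))

lemma cupR_congr (k : ℕ) (X : List St) (G G' : List St → K)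
    (h : ∀ X', X'.length = X.length + 2 → G X' = G' X') :
    cupR a b k G X = cupR a b k G' X := by
  induction k generalizing X G G' with
  | zero =>
    match X with
    | [] => rfl
    | x :: xs =>
      simp only [cupR]
      congr 1
      funext l r
      exact h _ (by simp)
  | succ k ih =>
    match X with
    | [] => rfl
    | z :: xs =>
      simp only [cupR]
      exact ih xs _ _ (fun X' h' => h _ (by simp [h']))

lemma capR_congr (k : ℕ) (X : List St) (G G' : List St → K)
    (h : ∀ X', X'.length + 2 = X.length → G X' = G' X') :
    capR a' b' k G X = capR a' b' k G' X := by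
  induction k generalizing X G G' with
  | zero =>
    match X with
    | [] => rfl
    | [_] => rfl
    | [_, _] => rfl
    | p :: x :: y :: xs =>
      simp only [capR]
      congr 2
      funext z
      exact h _ (by simp)
  | succ k ih =>
    match X with
    | [] => rfl
    | z :: xs =>
      simp only [capR]
      exact ih xs _ _ (fun X' h' => h _ (by simp at h' ⊢; omega))

end congr

section field

variable {K : Type*} [Field K] (a b : K)

theorem Phi_value (ha : a ≠ 0) (hb : b ≠ 0) {w : List Piece} {es : List Bool}
    (hw : OPath w es [true]) (X : List St) (hX : X.length = es.length + 1) :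
    kap a b ^ ncup w * Phi a b es X (value a a⁻¹ b b⁻¹ w)
      = kap a b ^ ncap w * regV a a⁻¹ b b⁻¹ w X := by
  generalize hfin : [true] = fin at hw
  induction hw generalizing X with
  | nil es =>
    subst hfin
    match X, hX with
    | [x0, x1], _ =>
      simp only [ncup, ncap, pow_zero, one_mul, Phi, regV, value]
      rcases x0 with ⟨_ | _, _ | _⟩ <;> rcases x1 with ⟨_ | _, _ | _⟩ <;> simp [ST, muT]
  | cons p w x y z hs _ ih =>
    subst hfin
    cases hs with
    | cross l₁ l₂ pos =>
      simp only [ncup, ncap, regV, pieceR]
      have e : value a a⁻¹ b b⁻¹ (.cross l₁.length pos :: w)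
          = crossT (Rm a a⁻¹ b b⁻¹ pos) l₁.length (value a a⁻¹ b b⁻¹ w) := rfl
      rw [e, inter_cross a b ha hb pos l₁ l₂ X hX, ← FinL.map_mul (finL_crossR a a⁻¹ b b⁻¹ pos _ X),
        ← FinL.map_mul (finL_crossR a a⁻¹ b b⁻¹ pos _ X)]
      refine crossR_congr _ _ _ _ _ _ _ _ _ (fun X' hX' => ?_)
      exact ih X' (hX'.trans hX) rfl
    | cup l₁ l₂ s =>
      simp only [ncup, ncap, regV, pieceR]
      have e : value a a⁻¹ b b⁻¹ (.cup l₁.length s :: w)
          = cupT (cupW a b⁻¹ s) l₁.length (value a a⁻¹ b b⁻¹ w) := rfl
      rw [e, pow_succ, mul_assoc, inter_cup a b hb s l₁ l₂ X hX,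
        ← FinL.map_mul (finL_cupR a b _ X), ← FinL.map_mul (finL_cupR a b _ X)]
      refine cupR_congr _ _ _ _ _ _ (fun X' hX' => ?_)
      exact ih X' (by simp at hX hX' ⊢; omega) rfl
    | cap l₁ l₂ s =>
      simp only [ncup, ncap, regV, pieceR]
      have e : value a a⁻¹ b b⁻¹ (.cap l₁.length s :: w)
          = capT (capW a⁻¹ b s) l₁.length (value a a⁻¹ b b⁻¹ w) := rfl
      rw [e, inter_cap a b ha hb s l₁ l₂ X hX, pow_succ, mul_left_comm, mul_comm (kap a b ^ ncap w),
        mul_assoc]
      congr 1
      rw [← FinL.map_mul (finL_capR a⁻¹ b⁻¹ _ X), ← FinL.map_mul (finL_capR a⁻¹ b⁻¹ _ X)]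
      refine capR_congr _ _ _ _ _ _ (fun X' hX' => ?_)
      exact ih X' (by simp at hX hX' ⊢; omega) rfl

theorem value_eq_regV (ha : a ≠ 0) (hb : b ≠ 0) (hk : kap a b ≠ 0) {w : List Piece}
    (hw : OPath w [true] [true]) :
    value a a⁻¹ b b⁻¹ w [0] = regV a a⁻¹ b b⁻¹ w [(false, false), (false, false)] := by
  have h := Phi_value a b ha hb hw [(false, false), (false, false)] rfl
  have hc := hw.count
  have hc' : ncup w = ncap w := by omega
  rw [hc'] at h
  have h2 := mul_left_cancel₀ (pow_ne_zero _ hk) h
  rw [← h2]
  simp [Phi, ST, muT]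

end field

section natural

variable {R S : Type*} [CommRing R] [CommRing S] (φ : R →+* S) (a a' b b' : R)

lemma map_Rm (pos : Bool) (G : Fin 4 → Fin 4 → R) (i j : Fin 4) :
    Rm (φ a) (φ a') (φ b) (φ b') pos (fun i j => φ (G i j)) i j = φ (Rm a a' b b' pos G i j) := by
  simp only [Rm_eq]
  fin_cases i <;> fin_cases j <;> cases pos <;> simp [RmT, RposT, RnegT]

lemma map_crossT (pos : Bool) (k : ℕ) (F : List (Fin 4) → R) (v : List (Fin 4)) :
    crossT (Rm (φ a) (φ a') (φ b) (φ b') pos) k (fun v => φ (F v)) v
      = φ (crossT (Rm a a' b b' pos) k F v) := by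
  induction k generalizing F v with
  | zero =>
    match v with
    | [] => simp [crossT]
    | [_] => simp [crossT]
    | x :: y :: v => simp only [crossT]; exact map_Rm φ a a' b b' pos _ x y
  | succ k ih =>
    match v with
    | [] => simp [crossT]
    | x :: v => simp only [crossT]; exact ih _ v

lemma map_cupT (s : Bool) (k : ℕ) (F : List (Fin 4) → R) (v : List (Fin 4)) :
    cupT (cupW (φ a) (φ b') s) k (fun v => φ (F v)) v = φ (cupT (cupW a b' s) k F v) := by
  induction k generalizing F v with
  | zero =>
    simp only [cupT]
    rw [map_sum]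
    refine Finset.sum_congr rfl (fun x _ => ?_)
    rw [map_mul]
    congr 1
    fin_cases x <;> cases s <;> simp [cupW]
  | succ k ih =>
    match v with
    | [] => simp [cupT]
    | x :: v => simp only [cupT]; exact ih _ v

lemma map_capT (s : Bool) (k : ℕ) (F : List (Fin 4) → R) (v : List (Fin 4)) :
    capT (capW (φ a') (φ b) s) k (fun v => φ (F v)) v = φ (capT (capW a' b s) k F v) := by
  induction k generalizing F v with
  | zero =>
    match v with
    | [] => simp [capT]
    | [_] => simp [capT]
    | x :: y :: v =>
      simp only [capT]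
      split_ifs
      · rw [map_mul]
        congr 1
        fin_cases x <;> cases s <;> simp [capW]
      · simp
  | succ k ih =>
    match v with
    | [] => simp [capT]
    | x :: v => simp only [capT]; exact ih _ v

theorem map_value (w : List Piece) (v : List (Fin 4)) :
    value (φ a) (φ a') (φ b) (φ b') w v = φ (value a a' b b' w v) := by
  induction w generalizing v with
  | nil => simp only [value]; split_ifs <;> simp
  | cons p w ih =>
    have ih' : value (φ a) (φ a') (φ b) (φ b') w = fun v => φ (value a a' b b' w v) := by
      funext v; exact ih v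
    simp only [value, ih']
    cases p with
    | cross k pos => exact map_crossT φ a a' b b' pos k _ v
    | cup k s => exact map_cupT φ a b' s k _ v
    | cap k s => exact map_capT φ a' b s k _ v

lemma map_ST (x : St) (H : St → St → R) :
    ST (φ a) (φ b) x (fun l r => φ (H l r)) = φ (ST a b x H) := by
  rcases x with ⟨_ | _, _ | _⟩ <;> simp [ST]

lemma map_MT (p y : St) (H : St → R) :
    MT (φ a') (φ b') p y (fun z => φ (H z)) = φ (MT a' b' p y H) := by
  rcases p with ⟨_ | _, _ | _⟩ <;> rcases y with ⟨_ | _, _ | _⟩ <;> simp [MT]

lemma map_XT (pos : Bool) (p x y : St) (G : St → St → St → R) :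
    XT (φ a) (φ a') (φ b) (φ b') pos p x y (fun p x y => φ (G p x y))
      = φ (XT a a' b b' pos p x y G) := by
  rcases p with ⟨_ | _, _ | _⟩ <;> rcases x with ⟨_ | _, _ | _⟩ <;>
    rcases y with ⟨_ | _, _ | _⟩ <;> cases pos <;> dsimp only [XT] <;>
    simp only [map_add, map_sub, map_neg, map_mul, map_pow]

theorem map_regV (w : List Piece) (X : List St) :
    regV (φ a) (φ a') (φ b) (φ b') w X = φ (regV a a' b b' w X) := by
  induction w generalizing X with
  | nil => simp only [regV]; split_ifs <;> simp
  | cons p w ih =>
    have ih' : regV (φ a) (φ a') (φ b) (φ b') w = fun v => φ (regV a a' b b' w v) := by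
      funext v; exact ih v
    simp only [regV, ih']
    cases p with
    | cross k pos =>
      simp only [pieceR]
      generalize regV a a' b b' w = G
      clear ih ih'
      induction k generalizing X G with
      | zero =>
        match X with
        | [] => simp [crossR]
        | [_] => simp [crossR]
        | [_, _] => simp [crossR]
        | p :: x :: y :: xs => simp only [crossR]; exact map_XT φ a a' b b' pos p x y _
      | succ k ih =>
        match X with
        | [] => simp [crossR]
        | z :: xs => simp only [crossR]; exact ih xs _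
    | cup k s =>
      simp only [pieceR]
      generalize regV a a' b b' w = G
      clear ih ih'
      induction k generalizing X G with
      | zero =>
        match X with
        | [] => simp [cupR]
        | x :: xs => simp only [cupR]; exact map_ST φ a b x _
      | succ k ih =>
        match X with
        | [] => simp [cupR]
        | z :: xs => simp only [cupR]; exact ih xs _
    | cap k s =>
      simp only [pieceR]
      generalize regV a a' b b' w = G
      clear ih ih'
      induction k generalizing X G with
      | zero =>
        match X with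
        | [] => simp [capR]
        | [_] => simp [capR]
        | [_, _] => simp [capR]
        | p :: x :: y :: xs =>
          simp only [capR]
          split_ifs
          · exact map_MT φ a' b' p y _
          · simp
      | succ k ih =>
        match X with
        | [] => simp [capR]
        | z :: xs => simp only [capR]; exact ih xs _

end natural

lemma mon_mul' (p q r s : ℤ) : mon p q * mon r s = mon (p + r) (q + s) := by
  simp [mon]

/-- The Links–Gould invariant in the region model. -/
theorem LG_eq_regV {w : List Piece} (hw : OPath w [true] [true]) :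
    LG w = regV (mon 1 0) (mon (-1) 0) (mon 0 1) (mon 0 (-1)) w [(false, false), (false, false)] := by
  let φ : L →+* FractionRing L := algebraMap L (FractionRing L)
  have hφ : Function.Injective φ := IsFractionRing.injective L (FractionRing L)
  have h1 : mon 1 0 * mon (-1) 0 = (1 : L) := by rw [mon_mul']; rfl
  have h2 : mon 0 1 * mon 0 (-1) = (1 : L) := by rw [mon_mul']; rfl
  have ha : φ (mon 1 0) ≠ 0 := by
    intro h
    have : φ (mon 1 0 * mon (-1) 0) = 0 := by rw [map_mul, h, zero_mul]
    rw [h1, map_one] at this
    exact one_ne_zero this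
  have hb : φ (mon 0 1) ≠ 0 := by
    intro h
    have : φ (mon 0 1 * mon 0 (-1)) = 0 := by rw [map_mul, h, zero_mul]
    rw [h2, map_one] at this
    exact one_ne_zero this
  have ha' : φ (mon (-1) 0) = (φ (mon 1 0))⁻¹ := by
    exact eq_inv_of_mul_eq_one_left (by rw [← map_mul, mul_comm, h1, map_one])
  have hb' : φ (mon 0 (-1)) = (φ (mon 0 1))⁻¹ := by
    exact eq_inv_of_mul_eq_one_left (by rw [← map_mul, mul_comm, h2, map_one])
  have hk : kap (φ (mon 1 0)) (φ (mon 0 1)) ≠ 0 := by
    rw [kap]
    refine mul_ne_zero (mul_ne_zero ha (pow_ne_zero _ hb)) ?_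
    intro h
    have h3 : φ (mon 1 0 ^ 2 - 1) = φ 0 := by rw [map_sub, map_pow, map_one, h, map_zero]
    have h4 := hφ h3
    have h5 : mon 2 0 = (1 : L) := by
      have : mon 1 0 ^ 2 = mon 2 0 := by rw [pow_two, mon_mul']; rfl
      rw [this] at h4
      exact sub_eq_zero.mp h4
    have h6 := congrArg (fun x : L => x.coeff ((2, 0) : ℤ × ℤ)) h5
    simp [mon, AddMonoidAlgebra.one_def] at h6
  have h := value_eq_regV _ _ ha hb hk hw
  rw [← ha', ← hb', map_value φ, map_regV φ] at h
  exact hφ h

end LGAlt
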